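import Pool.Agent.Helper85.HP.C5
import Pool.Agent.Helper86.SE.B
import Pool.Agent.Helper86.PE.C1

set_option autoImplicit false

/-!
# The exceptional points of families of small energy
-/

open Finset Filter Topology

namespace Pool.Agent.Helper86.SE

open Pool.Agent.H807R2.Dav hiding KK
open Pool.Agent.Helper86.PS
open Pool.Agent.Helper86.XS
open Pool.Agent.Helper85.HP
open Pool.Agent.Helper86.PE

/-- the multiplicities are bounded by the energy -/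
lemma fiber_pow (X : Finset ℤ) (f : ℤ → ℤ) (r : ℕ) (v : ℤ) :
    (X.filter (fun x => f x = v)).card ^ (2 * r) ≤ nrg X f r := by
  classical
  obtain ⟨Y, hY⟩ : ∃ Y : Finset ℤ, Y = X.filter (fun x => f x = v) := ⟨_, rfl⟩
  rw [← hY]
  have h : ((Fintype.piFinset (fun _ : Fin r => Y)) ×ˢ (Fintype.piFinset (fun _ : Fin r => Y))).card = Y.card ^ (2 * r) := by
    rw [card_product, Fintype.card_piFinset, prod_const, card_univ, Fintype.card_fin, ← pow_add]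
    congr 1
    ring
  rw [← h]
  unfold nrg
  apply card_le_card
  intro p hp
  rw [mem_product, Fintype.mem_piFinset, Fintype.mem_piFinset] at hp
  rw [mem_filter, mem_product, Fintype.mem_piFinset, Fintype.mem_piFinset]
  have h1 : ∀ i, p.1 i ∈ X ∧ f (p.1 i) = v := fun i => by
    have := hp.1 i
    rw [hY, mem_filter] at this
    exact this
  have h2 : ∀ i, p.2 i ∈ X ∧ f (p.2 i) = v := fun i => by
    have := hp.2 i
    rw [hY, mem_filter] at this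
    exact this
  refine ⟨⟨fun i => (h1 i).1, fun i => (h2 i).1⟩, ?_⟩
  exact sum_congr rfl fun i _ => by rw [(h1 i).2, (h2 i).2]

lemma nrg_add (X : Finset ℤ) (f : ℤ → ℤ) (r : ℕ) (t : ℤ) : nrg X (fun y => f y + t) r = nrg X f r := by
  classical
  unfold nrg
  congr 1
  apply filter_congr
  intro p _
  rw [sum_add_distrib, sum_add_distrib, add_left_inj]

/-- the points with proportional forms -/
lemma card_Del_fam {s : ℕ} {a : Fin s → ℤ} (ha : ∀ i, a i ≠ 0) {X : Fin s → Finset ℤ} {f : Fin s → ℤ → ℤ}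
    {m : ℝ} (hm : 0 < m) (hXm : ∀ i, ∀ v : ℤ, (((X i).filter (fun x => f i x = v)).card : ℝ) ≤ (X i).card / m) :
    (((Fintype.piFinset X).filter (fun x => Del a (fun i => f i (x i)) = 0)).card : ℝ) ≤
      s * s * ((∏ i, ((X i).card : ℝ)) / m) := by
  classical
  obtain ⟨Yk, hYk⟩ : ∃ Yk : Fin s → Fin s → Finset (Fin s → ℤ), Yk = fun i k =>
    (Fintype.piFinset X).filter (fun x => a k * f i (x i) = a i * f k (x k)) := ⟨_, rfl⟩
  have hsub : (Fintype.piFinset X).filter (fun x => Del a (fun i => f i (x i)) = 0) ⊆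
      univ.biUnion (fun i => (univ.erase i).biUnion (fun k => Yk i k)) := by
    intro x hx
    rw [mem_filter] at hx
    obtain ⟨i, k, hk, h1⟩ := Del_zero hx.2
    rw [mem_biUnion]
    refine ⟨i, mem_univ i, ?_⟩
    rw [mem_biUnion]
    refine ⟨k, hk, ?_⟩
    rw [hYk, mem_filter]
    exact ⟨hx.1, h1⟩
  have hPi0 : 0 ≤ ∏ i, ((X i).card : ℝ) := prod_nonneg fun _ _ => Nat.cast_nonneg _
  have hone : ∀ i, ∀ k ∈ univ.erase i, ((Yk i k).card : ℝ) ≤ (∏ i, ((X i).card : ℝ)) / m := by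
    intro i k hk
    have hki : k ≠ i := ne_of_mem_erase hk
    have h1 := card_slices X i (Yk i k) (by rw [hYk]; exact filter_subset _ _) (b := ((X i).card : ℝ) / m)
      (by positivity) (by
        intro x
        refine le_trans ?_ (hXm i ((a i * f k (x k)) / a k))
        have h4 : ((X i).filter (fun t => Function.update x i t ∈ Yk i k)).card ≤
            ((X i).filter (fun t => f i t = (a i * f k (x k)) / a k)).card := by
          apply card_le_card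
          intro t ht
          rw [mem_filter, hYk, mem_filter, Function.update_self, Function.update_of_ne hki] at ht
          rw [mem_filter]
          refine ⟨ht.1, ?_⟩
          rw [← ht.2.2, Int.mul_ediv_cancel_left _ (ha k)]
        exact_mod_cast h4)
    refine h1.trans (le_of_eq ?_)
    rw [← mul_prod_erase univ (fun i => ((X i).card : ℝ)) (mem_univ i)]
    ring
  have hcard : (((Fintype.piFinset X).filter (fun x => Del a (fun i => f i (x i)) = 0)).card : ℝ) ≤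
      ∑ i : Fin s, ∑ k ∈ univ.erase i, ((Yk i k).card : ℝ) := by
    have h1 := (card_le_card hsub).trans card_biUnion_le
    have h2 : ∑ i : Fin s, ((univ.erase i).biUnion (fun k => Yk i k)).card ≤ ∑ i : Fin s, ∑ k ∈ univ.erase i, (Yk i k).card :=
      sum_le_sum fun i _ => card_biUnion_le
    exact_mod_cast h1.trans h2
  refine hcard.trans ?_
  have h3 : ∀ i ∈ (univ : Finset (Fin s)), ∑ k ∈ univ.erase i, ((Yk i k).card : ℝ) ≤ s * ((∏ i, ((X i).card : ℝ)) / m) := by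
    intro i _
    refine (sum_le_sum (hone i)).trans ?_
    rw [sum_const, nsmul_eq_mul]
    apply mul_le_mul_of_nonneg_right _ (by positivity)
    have : (univ.erase i).card ≤ s := by
      refine (card_le_card (erase_subset _ _)).trans ?_
      rw [card_univ, Fintype.card_fin]
    exact_mod_cast this
  refine (sum_le_sum h3).trans ?_
  rw [sum_const, card_univ, Fintype.card_fin, nsmul_eq_mul, mul_assoc]

theorem exF (s : ℕ) (hs : 1 ≤ s) (R : ℕ) (c L1 L2 E' : ℕ) (hL1 : lE s ≤ L1)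
    (hE' : 1 + 2 * R * (s + (c + 10) + 6) ≤ E') (hE32 : 32 ≤ E') :
    ∃ Q0 : ℕ, ∀ Q : ℕ, Q0 ≤ Q → ∀ A : ℕ, 1 ≤ A → 4 * A + 1 ≤ Q → ((A : ℝ) + 1) ^ (2 * (R + 2)) ≤ qk (2 * E') Q →
    ∀ N : ℕ, Q ^ L1 ≤ N → N ≤ Q ^ L2 → ∀ B : PC → ℝ, HW Q ((4 * A + 1) * N) B → ∑ j ∈ fam Q, B j ≤ 3 →
    ∀ a : Fin s → ℤ, (∀ i, a i ≠ 0) →
    ∀ (rr : Fin s → ℕ) (X : Fin s → Finset ℤ) (f : Fin s → ℤ → ℤ), (∀ i, 1 ≤ rr i ∧ 2 * rr i ≤ R) →
    (∀ i, (N : ℝ) * nrg (X i) (f i) (rr i) ≤ qk (2 * E') Q ^ 2 * ((X i).card : ℝ) ^ (2 * rr i)) →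
    ∃ E : Finset (Fin s → ℤ), (E.card : ℝ) ≤ (∏ i, ((X i).card : ℝ)) / qk (2 * E') Q ^ c ∧
      ∀ x ∈ Fintype.piFinset X, x ∉ E → Gd (2 * E') Q A N a (fun i => f i (x i)) := by
  classical
  have hsr : (1 : ℝ) ≤ s := by exact_mod_cast hs
  obtain ⟨Q1, hQ1⟩ := fam_count s hs R (c + 10) L1 L2 E' hL1 hE' hE32
  have hE0 : (0 : ℝ) < ((2 * E' : ℕ) : ℝ) := by exact_mod_cast (by omega : 0 < 2 * E')
  obtain ⟨Q3, hQ3⟩ := ev_log (max ((s : ℝ) * s) 25) 0 (a := 1 / ((2 * E' : ℕ) : ℝ)) (by positivity)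
  refine ⟨Q1 + Q3 + 3, fun Q hQ A hA hA4 hAq N hN1 hN2 B hw hBs a ha rr X f hrr hnX => ?_⟩
  have hQ1' : 1 ≤ Q := by omega
  have hQr : (1 : ℝ) ≤ Q := by exact_mod_cast hQ1'
  have hQ2r : (2 : ℝ) ≤ Q := by exact_mod_cast (by omega : 2 ≤ Q)
  obtain ⟨q, hq⟩ : ∃ q : ℝ, q = qk (2 * E') Q := ⟨_, rfl⟩
  have hq1 : 1 ≤ q := by rw [hq]; exact qk_ge hQ1'
  have hq0 : 0 < q := by linarith
  have hqd : (Q : ℝ) ^ (1 / ((2 * E' : ℕ) : ℝ)) = q := by rw [hq]; rfl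
  have hmaxq : max ((s : ℝ) * s) 25 ≤ q := by
    have := hQ3 Q (by omega)
    rwa [pow_zero, mul_one, hqd] at this
  have hsKq : (s : ℝ) * s ≤ q := (le_max_left _ _).trans hmaxq
  have h25q : 25 ≤ q := (le_max_right _ _).trans hmaxq
  have hNpos : 0 < N := lt_of_lt_of_le (by positivity) hN1
  have hN0 : (0 : ℝ) < N := by exact_mod_cast hNpos
  obtain ⟨G, hG⟩ : ∃ G : ℕ, G = cg (2 * E') Q N := ⟨_, rfl⟩
  obtain ⟨k0, hk0⟩ : ∃ k0 : ℕ, k0 = kk (2 * E') Q := ⟨_, rfl⟩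
  obtain ⟨J, hJ⟩ : ∃ J : Finset ℤ, J = Icc (-(2 * k0 : ℤ)) (2 * k0) := ⟨_, rfl⟩
  have hKq : (k0 : ℝ) ≤ q ^ 4 := by rw [hk0, hq]; exact kk_le hQ1'
  have hQN : Q < N := by
    have h40 : 40 ≤ lE s := by unfold lE; omega
    have h1 : Q ^ 2 ≤ Q ^ L1 := Nat.pow_le_pow_right (by omega) (by omega)
    have h2 : Q * 1 < Q * Q := Nat.mul_lt_mul_of_pos_left (by omega) (by omega)
    have h3 : Q ^ 2 = Q * Q := sq Q
    omega
  have hqQ : ∀ n : ℕ, n ≤ 2 * E' → q ^ n ≤ Q := by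
    intro n hn
    rw [hq]
    exact qk_le (by omega) hQ1' hn
  have hKN : k0 ≤ N := by
    have h1 : (k0 : ℝ) ≤ Q := hKq.trans (hqQ 4 (by omega))
    have h2 : k0 ≤ Q := by exact_mod_cast h1
    omega
  have hKG : k0 * G ≤ 2 * N := by
    have e1 : k0 * G = k0 * (N / k0) + k0 := by rw [hG, hk0]; unfold cg; ring
    have e2 := Nat.mul_div_le N k0
    omega
  have hkG : ∀ k ∈ J, -(4 * N : ℤ) ≤ k * G ∧ k * G ≤ 4 * N := by
    intro k hk
    rw [hJ, mem_Icc] at hk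
    have h1 : (k0 : ℤ) * G ≤ 2 * N := by exact_mod_cast hKG
    have hG0 : (0 : ℤ) ≤ G := Int.natCast_nonneg _
    constructor
    · have := mul_le_mul_of_nonneg_right hk.1 hG0
      linarith
    · have := mul_le_mul_of_nonneg_right hk.2 hG0
      linarith
  obtain ⟨Xp, hX⟩ : ∃ Xp : Finset (Fin s → ℤ), Xp = Fintype.piFinset X := ⟨_, rfl⟩
  obtain ⟨Yk, hYk⟩ : ∃ Yk : ℤ × ℤ → Finset (Fin s → ℤ), Yk = fun k => Xp.filter (fun x =>
    (N : ℝ) / q ^ 4 < ‖DI Q ((4 * A + 1) * N) a (fun i => f i (x i)) (k.1 * G) (k.2 * G)‖) := ⟨_, rfl⟩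
  obtain ⟨Z, hZ⟩ : ∃ Z : Finset (Fin s → ℤ), Z = Xp.filter (fun x => Del a (fun i => f i (x i)) = 0) := ⟨_, rfl⟩
  obtain ⟨E, hE⟩ : ∃ E : Finset (Fin s → ℤ), E = Z ∪ (J ×ˢ J).biUnion Yk := ⟨_, rfl⟩
  have hPi0 : 0 ≤ ∏ i, ((X i).card : ℝ) := prod_nonneg fun _ _ => Nat.cast_nonneg _
  have hone : ∀ k ∈ J ×ˢ J, ((Yk k).card : ℝ) ≤ (∏ i, ((X i).card : ℝ)) / q ^ (c + 10) := by
    intro k hk
    rw [mem_product] at hk
    have h1 := hQ1 Q (by omega) A hA hA4 hAq N hN1 hN2 B hw hBs a ha rr X f hrr hnX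
      (k.1 * G) (k.2 * G) (by linarith [(hkG _ hk.1).1, (hkG _ hk.2).2]) (Yk k) (by rw [hYk, hX]; exact filter_subset _ _) (by
        intro x hx
        rw [hYk, mem_filter] at hx
        rw [← hq]
        exact hx.2)
    rwa [← hq] at h1
  -- the multiplicities
  have hPm : ∀ i, ∀ v : ℤ, (((X i).filter (fun x => f i x = v)).card : ℝ) ≤ (X i).card / q ^ (c + 10) := by
    intro i v
    obtain ⟨r, hr⟩ : ∃ r : ℕ, r = rr i := ⟨_, rfl⟩
    have hr1 : 1 ≤ r := by rw [hr]; exact (hrr i).1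
    have hrR : 2 * r ≤ R := by rw [hr]; exact (hrr i).2
    obtain ⟨g, hg⟩ : ∃ g : ℕ, g = ((X i).filter (fun x => f i x = v)).card := ⟨_, rfl⟩
    have h1 : (g : ℝ) ^ (2 * r) ≤ nrg (X i) (f i) r := by
      rw [hg]
      exact_mod_cast fiber_pow (X i) (f i) r v
    have h2 : (N : ℝ) * nrg (X i) (f i) r ≤ q ^ 2 * ((X i).card : ℝ) ^ (2 * r) := by
      rw [hq, hr]
      exact hnX i
    have h3 : q ^ 2 * (q ^ (c + 10)) ^ (2 * r) ≤ N := by
      have e1 : q ^ 2 * (q ^ (c + 10)) ^ (2 * r) = q ^ (2 + (c + 10) * (2 * r)) := by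
        rw [pow_add q 2, pow_mul q (c + 10)]
      have h5 : 2 + (c + 10) * (2 * r) ≤ 2 * E' := by
        have g1 : (c + 10) * (2 * r) ≤ (s + (c + 10) + 6) * R := Nat.mul_le_mul (by omega) hrR
        have g2 : 2 * R * (s + (c + 10) + 6) = 2 * ((s + (c + 10) + 6) * R) := by ring
        omega
      have h6 := hqQ _ h5
      rw [e1]
      refine h6.trans ?_
      exact_mod_cast hQN.le
    rw [← hg, le_div_iff₀ (by positivity)]
    apply le_of_pow_le_pow_left₀ (n := 2 * r) (by omega) (by positivity)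
    rw [mul_pow]
    have h4 : (N : ℝ) * ((g : ℝ) ^ (2 * r) * (q ^ (c + 10)) ^ (2 * r)) ≤ N * ((X i).card : ℝ) ^ (2 * r) := by
      calc (N : ℝ) * ((g : ℝ) ^ (2 * r) * (q ^ (c + 10)) ^ (2 * r)) = (N * (g : ℝ) ^ (2 * r)) * (q ^ (c + 10)) ^ (2 * r) := by ring
        _ ≤ (q ^ 2 * ((X i).card : ℝ) ^ (2 * r)) * (q ^ (c + 10)) ^ (2 * r) := by
          apply mul_le_mul_of_nonneg_right _ (by positivity)
          exact (mul_le_mul_of_nonneg_left h1 hN0.le).trans h2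
        _ = (q ^ 2 * (q ^ (c + 10)) ^ (2 * r)) * ((X i).card : ℝ) ^ (2 * r) := by ring
        _ ≤ _ := mul_le_mul_of_nonneg_right h3 (by positivity)
    exact le_of_mul_le_mul_left h4 hN0
  have hZc : (Z.card : ℝ) ≤ (∏ i, ((X i).card : ℝ)) / q ^ (c + 1) := by
    have h1 := card_Del_fam (a := a) ha (m := q ^ (c + 10)) (by positivity) hPm
    rw [hZ, hX]
    refine h1.trans ?_
    calc (s : ℝ) * s * ((∏ i, ((X i).card : ℝ)) / q ^ (c + 10)) ≤ q * ((∏ i, ((X i).card : ℝ)) / q ^ (c + 10)) :=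
          mul_le_mul_of_nonneg_right hsKq (by positivity)
      _ = (∏ i, ((X i).card : ℝ)) / q ^ (c + 9) := by
        rw [pow_succ q (c + 9)]
        field_simp
      _ ≤ _ := by
        apply div_le_div_of_nonneg_left hPi0 (by positivity)
        exact pow_le_pow_right₀ hq1 (by omega)
  have hJc : (J.card : ℝ) ≤ 5 * q ^ 4 := by
    have h1 : J.card ≤ 4 * k0 + 1 := by
      rw [hJ, Int.card_Icc]
      omega
    have h2 : (J.card : ℝ) ≤ 4 * k0 + 1 := by exact_mod_cast h1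
    have h3 : 1 ≤ q ^ 4 := one_le_pow₀ hq1
    linarith
  have hUc : (((J ×ˢ J).biUnion Yk).card : ℝ) ≤ (∏ i, ((X i).card : ℝ)) / q ^ (c + 1) := by
    have hcard : (((J ×ˢ J).biUnion Yk).card : ℝ) ≤ ∑ k ∈ J ×ˢ J, ((Yk k).card : ℝ) := by
      exact_mod_cast card_biUnion_le
    refine (hcard.trans (sum_le_sum hone)).trans ?_
    rw [sum_const, nsmul_eq_mul, card_product]
    push_cast
    calc (J.card : ℝ) * J.card * ((∏ i, ((X i).card : ℝ)) / q ^ (c + 10)) ≤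
        (5 * q ^ 4) * (5 * q ^ 4) * ((∏ i, ((X i).card : ℝ)) / q ^ (c + 10)) := by gcongr
      _ = 25 * (q ^ 8 * ((∏ i, ((X i).card : ℝ)) / q ^ (c + 10))) := by ring
      _ ≤ q * (q ^ 8 * ((∏ i, ((X i).card : ℝ)) / q ^ (c + 10))) := mul_le_mul_of_nonneg_right h25q (by positivity)
      _ = (∏ i, ((X i).card : ℝ)) / q ^ (c + 1) := by
        rw [show c + 10 = (c + 1) + 9 by ring, pow_add q (c + 1) 9]
        field_simp
  rw [← hq]
  refine ⟨E, ?_, ?_⟩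
  · have h1 : (E.card : ℝ) ≤ Z.card + ((J ×ˢ J).biUnion Yk).card := by
      rw [hE]
      exact_mod_cast card_union_le _ _
    refine h1.trans ((add_le_add hZc hUc).trans ?_)
    calc (∏ i, ((X i).card : ℝ)) / q ^ (c + 1) + (∏ i, ((X i).card : ℝ)) / q ^ (c + 1) = 2 * ((∏ i, ((X i).card : ℝ)) / q ^ (c + 1)) := by ring
      _ ≤ q * ((∏ i, ((X i).card : ℝ)) / q ^ (c + 1)) := mul_le_mul_of_nonneg_right (by linarith) (by positivity)
      _ = _ := by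
        rw [pow_succ q c]
        field_simp
  · intro x hx hxE
    rw [← hX] at hx
    have hΔ : Del a (fun i => f i (x i)) ≠ 0 := by
      intro hc
      apply hxE
      rw [hE, mem_union]
      left
      rw [hZ, mem_filter]
      exact ⟨hx, hc⟩
    refine ⟨hΔ, fun k1 k2 hk1 hk2 => ?_⟩
    by_contra hc
    push Not at hc
    apply hxE
    rw [hE, mem_union, mem_biUnion]
    right
    refine ⟨(k1, k2), ?_, ?_⟩
    · rw [mem_product, hJ, mem_Icc, mem_Icc, hk0]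
      exact ⟨abs_le.1 hk1, abs_le.1 hk2⟩
    · rw [hYk, mem_filter]
      refine ⟨hx, ?_⟩
      rw [hq, hG]
      exact hc

/-- the exceptional points for all shifts near the values of the families -/
theorem exFF (s : ℕ) (hs : 1 ≤ s) (R : ℕ) (L1 L2 E' : ℕ) (hL1 : lE s ≤ L1)
    (hL2 : 1 ≤ L2) (hE' : 1 + 2 * R * (s + ((2 * s + 1) + 10) + 6) ≤ E') (hE32 : 32 ≤ E') :
    ∃ Q0 : ℕ, ∀ Q : ℕ, Q0 ≤ Q → ∀ A : ℕ, 1 ≤ A → 4 * A + 1 ≤ Q → ((A : ℝ) + 1) ^ (2 * (R + 2)) ≤ qk (2 * E') Q →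
    ∀ N : ℕ, Q ^ L1 ≤ N → N ≤ Q ^ L2 → ∀ B : PC → ℝ, HW Q ((4 * A + 1) * N) B → ∑ j ∈ fam Q, B j ≤ 3 →
    ∀ a : Fin s → ℤ, (∀ i, a i ≠ 0) → ∀ (rr : Fin s → ℕ) (X : Fin s → Finset ℤ) (f : Fin s → ℤ → ℤ),
    (∀ i, 1 ≤ rr i ∧ 2 * rr i ≤ R) →
    (∀ i, (N : ℝ) ^ (1 - 1 / (((2 * E' : ℕ) : ℝ) * L2)) * nrg (X i) (f i) (rr i) ≤ ((X i).card : ℝ) ^ (2 * rr i)) →
    (∀ i, ∀ x ∈ X i, |f i x| ≤ A * N) →
    ∃ E : Finset (Fin s → ℤ), (E.card : ℝ) ≤ (N : ℝ) ^ (-(1 / (((2 * E' : ℕ) : ℝ) * L2))) * ∏ i, ((X i).card : ℝ) ∧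
      ∀ x : Fin s → ℤ, (∀ i, x i ∈ X i) → x ∉ E →
        ∀ h : Fin s → ℤ, (∀ i, ((|h i - f i (x i)| : ℤ) : ℝ) ≤ (N : ℝ) ^ (1 / (((2 * E' : ℕ) : ℝ) * L2))) →
        (∀ i, |h i| ≤ 2 * A * N) ∧ Gd (2 * E') Q A N a h := by
  classical
  obtain ⟨Q1, hQ1⟩ := exF s hs R (2 * s + 1) L1 L2 E' hL1 hE' hE32
  have hE0 : (0 : ℝ) < ((2 * E' : ℕ) : ℝ) := by exact_mod_cast (by omega : 0 < 2 * E')
  obtain ⟨Q3, hQ3⟩ := ev_log 3 0 (a := 1 / ((2 * E' : ℕ) : ℝ)) (by positivity)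
  refine ⟨Q1 + Q3 + 3, fun Q hQ A hA hA4 hAq N hN1 hN2 B hw hBs a ha rr X f hrr hPN hFB => ?_⟩
  have hQ1' : 1 ≤ Q := by omega
  have hQr : (1 : ℝ) ≤ Q := by exact_mod_cast hQ1'
  have hQ0 : (0 : ℝ) < Q := by linarith
  obtain ⟨q, hq⟩ : ∃ q : ℝ, q = qk (2 * E') Q := ⟨_, rfl⟩
  have hq1 : 1 ≤ q := by rw [hq]; exact qk_ge hQ1'
  have hq0 : 0 < q := by linarith
  have hqd : (Q : ℝ) ^ (1 / ((2 * E' : ℕ) : ℝ)) = q := by rw [hq]; rfl
  have h3q : 3 ≤ q := by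
    have := hQ3 Q (by omega)
    rwa [pow_zero, mul_one, hqd] at this
  have hNpos : 0 < N := lt_of_lt_of_le (by positivity) hN1
  have hN0 : (0 : ℝ) < N := by exact_mod_cast hNpos
  have hN1r : (1 : ℝ) ≤ N := by exact_mod_cast hNpos
  obtain ⟨δ, hδ⟩ : ∃ δ : ℝ, δ = 1 / (((2 * E' : ℕ) : ℝ) * L2) := ⟨_, rfl⟩
  rw [← hδ]
  rw [← hδ] at hPN
  have hL2r : (0 : ℝ) < L2 := by exact_mod_cast hL2
  have hδ0 : 0 < δ := by rw [hδ]; positivity
  have hNδ : (N : ℝ) ^ δ ≤ q := by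
    have h1 : (N : ℝ) ^ δ ≤ ((Q : ℝ) ^ L2) ^ δ := by
      apply Real.rpow_le_rpow hN0.le _ hδ0.le
      exact_mod_cast hN2
    refine h1.trans (le_of_eq ?_)
    rw [← hqd, ← Real.rpow_natCast, ← Real.rpow_mul (by linarith)]
    congr 1
    rw [hδ]
    field_simp
  have hNδ0 : 0 < (N : ℝ) ^ δ := Real.rpow_pos_of_pos hN0 _
  have hsplit : (N : ℝ) = (N : ℝ) ^ δ * (N : ℝ) ^ (1 - δ) := by
    rw [← Real.rpow_add hN0]
    have : δ + (1 - δ) = 1 := by ring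
    rw [this, Real.rpow_one]
  have hQN : Q ≤ N := by
    have h40 : 40 ≤ lE s := by unfold lE; omega
    have h1 : Q ≤ Q ^ L1 := Nat.le_self_pow (by omega) Q
    omega
  obtain ⟨T, hT⟩ : ∃ T : ℕ, T = ⌊(N : ℝ) ^ δ⌋₊ := ⟨_, rfl⟩
  have hTq : (T : ℝ) ≤ q := by rw [hT]; exact (Nat.floor_le hNδ0.le).trans hNδ
  have hTN : T ≤ N := by
    have h1 : (T : ℝ) ≤ Q := hTq.trans (by
      have := qk_le (E := 2 * E') (Q := Q) (by omega) hQ1' (n := 1) (by omega)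
      rwa [pow_one, ← hq] at this)
    have h2 : T ≤ Q := by exact_mod_cast h1
    omega
  obtain ⟨Ts, hTs⟩ : ∃ Ts : Finset (Fin s → ℤ), Ts = Fintype.piFinset (fun _ : Fin s => Icc (-(T : ℤ)) T) := ⟨_, rfl⟩
  have hPi0 : 0 ≤ ∏ i, ((X i).card : ℝ) := prod_nonneg fun _ _ => Nat.cast_nonneg _
  have hex := hQ1 Q (by omega) A hA hA4 hAq N hN1 hN2 B hw hBs a ha rr X
  rw [← hq] at hex
  have hPN' : ∀ i, (N : ℝ) * nrg (X i) (f i) (rr i) ≤ q ^ 2 * ((X i).card : ℝ) ^ (2 * rr i) := by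
    intro i
    calc (N : ℝ) * nrg (X i) (f i) (rr i) = (N : ℝ) ^ δ * ((N : ℝ) ^ (1 - δ) * nrg (X i) (f i) (rr i)) := by
          rw [← mul_assoc, ← hsplit]
      _ ≤ q * ((X i).card : ℝ) ^ (2 * rr i) := mul_le_mul hNδ (hPN i)
          (mul_nonneg (Real.rpow_nonneg hN0.le _) (Nat.cast_nonneg _)) hq0.le
      _ ≤ q ^ 2 * ((X i).card : ℝ) ^ (2 * rr i) := by
          apply mul_le_mul_of_nonneg_right _ (pow_nonneg (Nat.cast_nonneg _) _)
          exact le_self_pow₀ hq1 (by norm_num)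
  clear hsplit
  have ht : ∀ t ∈ Ts, ∃ E : Finset (Fin s → ℤ), (E.card : ℝ) ≤ (∏ i, ((X i).card : ℝ)) / q ^ (2 * s + 1) ∧
      ∀ x ∈ Fintype.piFinset X, x ∉ E →
        Gd (2 * E') Q A N a (fun i => f i (x i) + t i) := by
    intro t ht
    rw [hTs, Fintype.mem_piFinset] at ht
    exact hex (fun i y => f i y + t i) hrr (fun i => by
      rw [nrg_add]
      exact hPN' i)
  choose! Et hEt1 hEt2 using ht
  refine ⟨Ts.biUnion Et, ?_, ?_⟩
  · have hTsc : (Ts.card : ℝ) ≤ q ^ (2 * s) := by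
      have h1 : Ts.card = (2 * T + 1) ^ s := by
        rw [hTs, Fintype.card_piFinset, prod_const, card_univ, Fintype.card_fin, Int.card_Icc]
        congr 1
        omega
      rw [h1]
      push_cast
      calc (2 * (T : ℝ) + 1) ^ s ≤ (q ^ 2) ^ s := by
            apply pow_le_pow_left₀ (by positivity)
            nlinarith
        _ = q ^ (2 * s) := by rw [pow_mul]
    have h1 : ((Ts.biUnion Et).card : ℝ) ≤ ∑ t ∈ Ts, ((Et t).card : ℝ) := by
      exact_mod_cast card_biUnion_le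
    refine (h1.trans (sum_le_sum hEt1)).trans ?_
    rw [sum_const, nsmul_eq_mul]
    calc (Ts.card : ℝ) * ((∏ i, ((X i).card : ℝ)) / q ^ (2 * s + 1)) ≤ q ^ (2 * s) * ((∏ i, ((X i).card : ℝ)) / q ^ (2 * s + 1)) :=
          mul_le_mul_of_nonneg_right hTsc (by positivity)
      _ = q⁻¹ * ∏ i, ((X i).card : ℝ) := by
        rw [pow_succ]
        field_simp
      _ ≤ (N : ℝ) ^ (-δ) * ∏ i, ((X i).card : ℝ) := by
        apply mul_le_mul_of_nonneg_right _ hPi0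
        rw [Real.rpow_neg hN0.le]
        exact inv_anti₀ hNδ0 hNδ
  · intro x hx hxE h hh
    obtain ⟨t, htd⟩ : ∃ t : Fin s → ℤ, t = fun i => h i - f i (x i) := ⟨_, rfl⟩
    have htT : t ∈ Ts := by
      rw [hTs, Fintype.mem_piFinset]
      intro i
      rw [mem_Icc, ← abs_le]
      have h1 := hh i
      have h2 : |t i| = ((t i).natAbs : ℤ) := Int.abs_eq_natAbs _
      rw [h2]
      have h3 : ((t i).natAbs : ℝ) ≤ (N : ℝ) ^ δ := by
        have h4 : ((t i).natAbs : ℝ) = ((|t i| : ℤ) : ℝ) := by rw [h2]; simp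
        rw [h4, htd]
        exact h1
      have h5 := Nat.le_floor h3
      rw [← hT] at h5
      exact_mod_cast h5
    have hxE' : x ∉ Et t := fun hc => hxE (mem_biUnion.2 ⟨t, htT, hc⟩)
    have hht : (fun i => f i (x i) + t i) = h := by
      funext i
      rw [htd]
      ring
    have h1 := hEt2 t htT x (by
      rw [Fintype.mem_piFinset]
      exact hx) hxE'
    rw [hht] at h1
    refine ⟨fun i => ?_, h1⟩
    have g1 := hFB i (x i) (hx i)
    have g2 : |t i| ≤ T := by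
      rw [hTs, Fintype.mem_piFinset] at htT
      have := htT i
      rw [mem_Icc] at this
      exact abs_le.2 this
    have g3 := abs_add_le (f i (x i)) (t i)
    have g4 : f i (x i) + t i = h i := congrFun hht i
    rw [g4] at g3
    have g5 : (T : ℤ) ≤ N := by exact_mod_cast hTN
    have g6 : (1 : ℤ) ≤ A := by exact_mod_cast hA
    have g7 : (N : ℤ) ≤ A * N := le_mul_of_one_le_left (Int.natCast_nonneg _) g6
    linarith

end Pool.Agent.Helper86.SE
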