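import Pool.Agent.Helper86.PE.D2

set_option autoImplicit false

/-!
# Families of small additive energy: the statements
-/

open Finset Filter Topology

namespace Pool.Agent.Helper86.SE

open Pool.Agent.Helper86.PS
open Pool.Agent.Helper86.XS
open Pool.Agent.Helper86.DZ
open Pool.Agent.Helper86.UA
open Pool.Agent.Helper86.EA
open Pool.Agent.Helper86.PE
open Pool.Agent.Helper85.HP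

/-- a finite family of integers `f x`, `x ∈ X`, at the scale `N`, of size at most `N ^ (1 + δ)` and of almost
minimal additive energy of order `r` -/
def SmallE (δ : ℝ) (N r : ℕ) (X : Finset ℤ) (f : ℤ → ℤ) : Prop :=
  (∀ x ∈ X, ((|f x| : ℤ) : ℝ) ≤ (N : ℝ) ^ (1 + δ)) ∧
    (N : ℝ) ^ (1 - δ) * nrg X f r ≤ (X.card : ℝ) ^ (2 * r)

/-- prime tuples, the shifts in families of small energy, every scale -/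
def EveryF : Prop :=
  ∀ (s : ℕ), 1 ≤ s → ∀ (R : ℕ) {ε : ℝ}, 0 < ε →
    ∃ D : ℕ, 0 < D ∧ ∃ δ : ℝ, 0 < δ ∧ ∃ c : ℝ, 0 < c ∧ ∀ B : ℕ, ∀ κ : ℝ, 0 < κ → ∃ N0 : ℕ, ∀ N : ℕ, N0 ≤ N →
    ∃ j1 : PC, Real.log N ^ B ≤ ((j1.1 + 1 : ℕ) : ℝ) ∧ j1.2 ^ 2 = 1 ∧ ∃ y : ℝ, 0 ≤ y ∧ y ≤ 1 - (N : ℝ) ^ (-κ) ∧
      (y = 0 ∨ (j1.2.IsPrimitive ∧ j1.2 ≠ 1 ∧ ∃ β : ℝ, y = (N : ℝ) ^ (β - 1) ∧ j1.2.LFunction β = 0)) ∧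
    ∀ a : Fin s → ℤ, (∀ i, a i ≠ 0 ∧ ((|a i| : ℤ) : ℝ) ≤ (N : ℝ) ^ δ) →
    ∀ (r : Fin s → ℕ) (X : Fin s → Finset ℤ) (f : Fin s → ℤ → ℤ), (∀ i, 1 ≤ r i ∧ r i ≤ R) →
    (∀ i, SmallE δ N (r i) (X i) (f i)) →
    ∃ E : Finset (Fin s → ℤ), (E.card : ℝ) ≤ (N : ℝ) ^ (-δ) * ∏ i, ((X i).card : ℝ) ∧
    ∀ x : Fin s → ℤ, (∀ i, x i ∈ X i) → x ∉ E →
    ∀ h : Fin s → ℤ, (∀ i, ((|h i - f i (x i)| : ℤ) : ℝ) ≤ (N : ℝ) ^ δ) → (∀ p : ℕ, p.Prime → nuP a h p < p) →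
    (1 - y) ^ s ≤ twA j1 y a h ∧ twA j1 y a h ≤ 2 ^ s ∧
    ∃ S : ℝ, HasProd (fun p : Nat.Primes => facP a h (p : ℕ)) S ∧ c ≤ S ∧ ∀ u v : ℤ, -(N : ℤ) ≤ u → v ≤ N →
      (N : ℝ) ^ (1 - δ) ≤ ((v - u : ℤ) : ℝ) → (∀ n ∈ Ico u v, ∀ i, 1 ≤ a i * n + h i) →
      |(pc a h u v : ℝ) - twA j1 y a h * S * (((v - u : ℤ) : ℝ) / Real.log N ^ s)| ≤
        ε * (twA j1 y a h * S * (((v - u : ℤ) : ℝ) / Real.log N ^ s)) ∧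
      (¬ ((j1.1 + 1 : ℕ) : ℤ) ∣ (D : ℤ) * (Del a h * ∏ i, a i) →
        |(pc a h u v : ℝ) - S * (((v - u : ℤ) : ℝ) / Real.log N ^ s)| ≤ ε * (S * (((v - u : ℤ) : ℝ) / Real.log N ^ s)))

/-- pairs `n`, `a n + m`, the numbers `m` in a family of small energy, every scale -/
def EveryH : Prop :=
  ∀ (R : ℕ) {ε : ℝ}, 0 < ε →
    ∃ D : ℕ, 0 < D ∧ ∃ δ : ℝ, 0 < δ ∧ ∃ c : ℝ, 0 < c ∧ ∀ B : ℕ, ∀ κ : ℝ, 0 < κ → ∃ N0 : ℕ, ∀ N : ℕ, N0 ≤ N →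
    ∃ j1 : PC, Real.log N ^ B ≤ ((j1.1 + 1 : ℕ) : ℝ) ∧ j1.2 ^ 2 = 1 ∧ ∃ y : ℝ, 0 ≤ y ∧ y ≤ 1 - (N : ℝ) ^ (-κ) ∧
      (y = 0 ∨ (j1.2.IsPrimitive ∧ j1.2 ≠ 1 ∧ ∃ β : ℝ, y = (N : ℝ) ^ (β - 1) ∧ j1.2.LFunction β = 0)) ∧
    ∀ a : ℤ, a ≠ 0 → ((|a| : ℤ) : ℝ) ≤ (N : ℝ) ^ δ →
    ∀ (r : ℕ) (X : Finset ℤ) (f : ℤ → ℤ), 1 ≤ r → r ≤ R → SmallE δ N r X f →
    ∃ E : Finset ℤ, (E.card : ℝ) ≤ (N : ℝ) ^ (-δ) * X.card ∧ ∀ x ∈ X, x ∉ E →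
    ∀ m : ℤ, m ≠ 0 → ((|m - f x| : ℤ) : ℝ) ≤ (N : ℝ) ^ δ → (∀ p : ℕ, p.Prime → nuP (pa a) (ph m) p < p) →
    (1 - y) ^ 2 ≤ twA j1 y (pa a) (ph m) ∧ twA j1 y (pa a) (ph m) ≤ 2 ^ 2 ∧
    ∃ S : ℝ, HasProd (fun p : Nat.Primes => facP (pa a) (ph m) (p : ℕ)) S ∧ c ≤ S ∧ ∀ u v : ℤ, -(2 * N : ℤ) ≤ u → v ≤ 2 * N →
      (N : ℝ) ^ (1 - δ) ≤ ((v - u : ℤ) : ℝ) → (∀ n ∈ Ico u v, ∀ i, 1 ≤ pa a i * n + ph m i) →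
      |(pc (pa a) (ph m) u v : ℝ) - twA j1 y (pa a) (ph m) * S * (((v - u : ℤ) : ℝ) / Real.log N ^ 2)| ≤
        ε * (twA j1 y (pa a) (ph m) * S * (((v - u : ℤ) : ℝ) / Real.log N ^ 2)) ∧
      (¬ ((j1.1 + 1 : ℕ) : ℤ) ∣ (D : ℤ) * (m ^ 2 * a) →
        |(pc (pa a) (ph m) u v : ℝ) - S * (((v - u : ℤ) : ℝ) / Real.log N ^ 2)| ≤
          ε * (S * (((v - u : ℤ) : ℝ) / Real.log N ^ 2)))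

end Pool.Agent.Helper86.SE
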