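import Pool.Agent.Helper86.PE.D2
import Pool.Agent.Helper86.SE.C

set_option autoImplicit false

/-!
# Pairs of linear forms, one of the shifts in a family of small energy
-/

open Finset Filter Topology

namespace Pool.Agent.Helper86.SE

open Pool.Agent.H807R2.Dav hiding KK
open Pool.Agent.Helper86.PS
open Pool.Agent.Helper86.XS
open Pool.Agent.Helper85.HP
open Pool.Agent.Helper86.PE

/-- **the number of the exceptions for one interval** -/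
theorem pairF_count (R c L1 L2 E' : ℕ) (hL1 : lE 2 ≤ L1)
    (hE' : 1 + 2 * R * (3 + c + 6) ≤ E') (hE32 : 32 ≤ E') : ∃ Q0 : ℕ, ∀ Q : ℕ, Q0 ≤ Q →
    ∀ A : ℕ, 1 ≤ A → 4 * A + 1 ≤ Q → ((A : ℝ) + 1) ^ (2 * (R + 2)) ≤ qk (2 * E') Q →
    ∀ N : ℕ, Q ^ L1 ≤ N → N ≤ Q ^ L2 →
    ∀ B : PC → ℝ, HW Q ((4 * A + 1) * N) B → ∑ j ∈ fam Q, B j ≤ 3 → ∀ a : ℤ, a ≠ 0 →
    ∀ (r : ℕ) (X : Finset ℤ) (f : ℤ → ℤ), 1 ≤ r → 2 * r ≤ R →
    (N : ℝ) * nrg X f r ≤ qk (2 * E') Q ^ 2 * (X.card : ℝ) ^ (2 * r) →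
    ∀ u v : ℤ, -(4 * N : ℤ) ≤ u → u ≤ 4 * N → -(4 * N : ℤ) ≤ v → v ≤ 4 * N → ∀ Y ⊆ X,
    (∀ x ∈ Y, (N : ℝ) / qk (2 * E') Q ^ 4 < ‖DI Q ((4 * A + 1) * N) (pa a) (ph (f x)) u v‖) →
    (Y.card : ℝ) ≤ (X.card : ℝ) / qk (2 * E') Q ^ c := by
  classical
  have hE'0 : (0 : ℝ) < ((2 * E' : ℕ) : ℝ) := by exact_mod_cast (by omega : 0 < 2 * E')
  obtain ⟨C, hC1⟩ : ∃ C : ℝ, C = 1 := ⟨_, rfl⟩
  have hC : 1 ≤ C := hC1.ge
  have hC0 : (0 : ℝ) ≤ C := by linarith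
  obtain ⟨Kc1, hKc1⟩ : ∃ Kc1 : ℝ, Kc1 = (3 : ℝ) ^ (2 * R) * ((8 * 4 ^ 3) ^ R * 64 ^ R * 4 * C) * 4 ^ (R + 2) := ⟨_, rfl⟩
  have hKc10 : 0 ≤ Kc1 := by rw [hKc1]; positivity
  obtain ⟨Q1, hQ1⟩ := sup_main3 (cR 2) (L2 + 1) (by unfold cR; norm_num) (κ := 1 / ((2 * E' : ℕ) : ℝ)) (by positivity) (by
    apply one_div_le_one_div_of_le (by norm_num)
    exact_mod_cast (by omega : 32 ≤ 2 * E'))
  obtain ⟨Q2, hQ2⟩ := ev_log (max (Kc1 ^ 2) 4) 0 (a := 1 / ((2 * E' : ℕ) : ℝ)) (by positivity)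
  refine ⟨Q1 + Q2 + 5, fun Q hQ A hA hA4 hAq N hN1 hN2 B hw hBs a ha r X f hr1 hrR hnX u v hu hu' hv hv' Y hY hYl => ?_⟩
  obtain ⟨M0, hM0⟩ : ∃ M0 : ℝ, M0 = 4 * A + 1 := ⟨_, rfl⟩
  have hA0 : (1 : ℝ) ≤ A := by exact_mod_cast hA
  have hM01 : 1 ≤ M0 := by rw [hM0]; linarith
  obtain ⟨Kc, hKc⟩ : ∃ Kc : ℝ, Kc = (3 : ℝ) ^ (2 * R) * ((8 * 4 ^ 3) ^ R * (64 * M0) ^ R * 4 * M0 ^ 2 * C) := ⟨_, rfl⟩
  have hQ1' : 1 ≤ Q := by omega
  have hQr : (1 : ℝ) ≤ Q := by exact_mod_cast hQ1'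
  have hQ0 : (0 : ℝ) < Q := by linarith
  have hNpos : 0 < N := lt_of_lt_of_le (by positivity) hN1
  have hN0 : (0 : ℝ) < N := by exact_mod_cast hNpos
  obtain ⟨M, hM⟩ : ∃ M : ℕ, M = (4 * A + 1) * N := ⟨_, rfl⟩
  have hMN : N ≤ M := by rw [hM]; exact Nat.le_mul_of_pos_left _ (by omega)
  have hM1 : 1 ≤ M := by omega
  have hMr : (M : ℝ) = M0 * N := by rw [hM, hM0]; push_cast; ring
  have hlow : Q ^ (6 * cR 2 + 20) ≤ M := by
    refine le_trans (Nat.pow_le_pow_right (by omega) ?_) (hN1.trans hMN)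
    unfold lE at hL1
    omega
  have hup : M ≤ Q ^ (L2 + 1) := by
    calc M = (4 * A + 1) * N := hM
      _ ≤ Q * Q ^ L2 := Nat.mul_le_mul (by omega) hN2
      _ = Q ^ (L2 + 1) := by ring
  rw [← hM] at hw hYl
  obtain ⟨hσ, hcL, hcB, hS1, hS2, hlog⟩ := hQ1 Q (by omega) M hlow hup B hw hBs
  obtain ⟨q, hq⟩ : ∃ q : ℝ, q = qk (2 * E') Q := ⟨_, rfl⟩
  have hqd : (Q : ℝ) ^ (1 / ((2 * E' : ℕ) : ℝ)) = q := by rw [hq]; rfl
  have hq1 : 1 ≤ q := by rw [hq]; exact qk_ge hQ1'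
  have hq0 : 0 < q := by linarith
  have hmaxq : max (Kc1 ^ 2) 4 ≤ q := by
    have := hQ2 Q (by omega)
    rwa [pow_zero, mul_one, hqd] at this
  rw [← hq] at hAq
  have hKcq : Kc ≤ q := by
    have g1 : Kc1 ≤ √q := Real.le_sqrt_of_sq_le ((le_max_left _ _).trans hmaxq)
    have g2 : ((A : ℝ) + 1) ^ (R + 2) ≤ √q := by
      apply Real.le_sqrt_of_sq_le
      rw [← pow_mul, mul_comm (R + 2) 2]
      exact hAq
    have g3 : M0 ≤ 4 * ((A : ℝ) + 1) := by rw [hM0]; linarith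
    have g4 : M0 ^ (R + 2) ≤ 4 ^ (R + 2) * ((A : ℝ) + 1) ^ (R + 2) := by
      rw [← mul_pow]
      exact pow_le_pow_left₀ (by linarith) g3 _
    calc Kc = (3 : ℝ) ^ (2 * R) * ((8 * 4 ^ 3) ^ R * 64 ^ R * 4 * C) * M0 ^ (R + 2) := by
          rw [hKc, mul_pow, pow_add]; ring
      _ ≤ (3 : ℝ) ^ (2 * R) * ((8 * 4 ^ 3) ^ R * 64 ^ R * 4 * C) * (4 ^ (R + 2) * ((A : ℝ) + 1) ^ (R + 2)) :=
          mul_le_mul_of_nonneg_left g4 (by positivity)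
      _ = Kc1 * ((A : ℝ) + 1) ^ (R + 2) := by rw [hKc1]; ring
      _ ≤ √q * √q := mul_le_mul g1 g2 (by positivity) (Real.sqrt_nonneg _)
      _ = q := Real.mul_self_sqrt hq0.le
  have h4q : 4 ≤ q := (le_max_right _ _).trans hmaxq
  have hM0q : M0 ≤ 4 * q := by
    have g1 : ((A : ℝ) + 1) ^ 1 ≤ ((A : ℝ) + 1) ^ (2 * (R + 2)) := pow_le_pow_right₀ (by linarith) (by omega)
    rw [pow_one] at g1
    rw [hM0]
    linarith
  rw [hqd] at hcL hcB hlog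
  rw [← hq] at hnX hYl ⊢
  obtain ⟨w, hwd⟩ : ∃ w : ℝ, w = (Q : ℝ) ^ (-(1 / 4) : ℝ) := ⟨_, rfl⟩
  rw [← hwd] at hσ
  have hw0 : 0 ≤ w := by rw [hwd]; positivity
  have hww : w ^ 2 * q ^ E' = 1 := by
    have e1 : w ^ 2 = (Q : ℝ) ^ (-(1 / 2) : ℝ) := by
      rw [hwd, ← Real.rpow_natCast, ← Real.rpow_mul hQ0.le]
      norm_num
    have e2 : q ^ E' = (Q : ℝ) ^ (1 / 2 : ℝ) := by
      rw [← hqd, ← Real.rpow_natCast, ← Real.rpow_mul hQ0.le]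
      congr 1
      push_cast
      have : (E' : ℝ) ≠ 0 := by
        have : 0 < E' := by omega
        exact_mod_cast this.ne'
      field_simp
    rw [e1, e2, ← Real.rpow_add hQ0]
    norm_num
  obtain ⟨P, hPd⟩ : ∃ P : ℝ, P = (X.card : ℝ) := ⟨_, rfl⟩
  have hP0 : 0 ≤ P := by rw [hPd]; exact Nat.cast_nonneg _
  obtain ⟨nn, hnnd⟩ : ∃ nn : ℝ, nn = (nrg X f r : ℝ) := ⟨_, rfl⟩
  have hnn0 : 0 ≤ nn := by rw [hnnd]; exact Nat.cast_nonneg _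
  have hnn : (N : ℝ) * nn ≤ C * q ^ 2 * P ^ (2 * r) := by
    rw [hC1, one_mul, hnnd, hPd]
    exact hnX
  rw [← hPd]
  obtain ⟨Z, hZ⟩ : ∃ Z : ℝ, Z = (8 * N * ((2 * q) ^ 3) ^ 2) ^ r *
    ((4 * (M0 * N) * (2 * (2 * q)) ^ 2) ^ (r - 1) * ((2 * (M0 * N * w)) ^ 2 * nn)) := ⟨_, rfl⟩
  have hnum : Z ≤ (N / ((3 : ℕ) * q ^ 4) * (P / q ^ (c + 1))) ^ (2 * r) := by
    rw [hZ]
    apply num_step (E' := E') (C := C) hr1 (by norm_num) hN0 hP0 hq1 hC hM01 (by positivity) (by positivity)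
      (le_refl _) (le_refl _) hnn0 hnn hww
    · refine le_trans ?_ hE'
      have := Nat.mul_le_mul_right (3 + c + 6) hrR
      have e : 2 * R * (3 + c + 6) = 2 * (R * (3 + c + 6)) := by ring
      omega
    · refine le_trans ?_ hKcq
      rw [hKc]
      have hrR' : r ≤ R := by omega
      have g1 : (((3 : ℕ) : ℝ)) ^ (2 * r) ≤ (3 : ℝ) ^ (2 * R) := by
        push_cast
        exact pow_le_pow_right₀ (by norm_num) (by omega)
      have g2 : (8 * 4 ^ 3 : ℝ) ^ r ≤ (8 * 4 ^ 3) ^ R := pow_le_pow_right₀ (by norm_num) hrR'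
      have g3 : (64 * M0) ^ r ≤ (64 * M0) ^ R := pow_le_pow_right₀ (by linarith) hrR'
      have hM00 : (0 : ℝ) ≤ M0 := by linarith
      gcongr
  -- the two parts
  obtain ⟨D, hD⟩ : ∃ D : ℤ → ℂ, D = fun n => cL Q M n - cB Q (cR 2) M n := ⟨_, rfl⟩
  have hDSF : SF D (Icc (-(M : ℤ)) (2 * M)) := by
    intro n hn
    rw [hD]
    simp only
    rw [hS1 n hn, hS2 n hn, sub_zero]
  have hDσ : ∀ θ, ‖FT D θ‖ ≤ 2 * (M0 * N * w) := by
    intro θ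
    rw [hD, FT_sub hS1 hS2, ← hMr]
    exact hσ θ
  have hDV : ∀ n, ‖D n‖ ≤ 2 * (2 * q) := by
    intro n
    rw [hD]
    refine (norm_sub_le _ _).trans ?_
    have := hcL n
    have := hcB n
    linarith
  have hc3 : ((Icc (-(M : ℤ)) (2 * M)).card : ℝ) ≤ 4 * (M0 * N) := by
    rw [← hMr]
    exact card_Icc3 hM1
  have hsD : ∑ n ∈ Icc (-(M : ℤ)) (2 * M), ‖D n‖ ^ 2 ≤ 4 * (M0 * N) * (2 * (2 * q)) ^ 2 :=
    sum_norm_sq hc3 (by positivity) fun n _ => hDV n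
  obtain ⟨l, hl⟩ : ∃ l : ℝ, l = N / ((3 : ℕ) * q ^ 4) := ⟨_, rfl⟩
  have hl0 : 0 < l := by rw [hl]; positivity
  obtain ⟨D1, hD1⟩ : ∃ D1 : ℤ → ℂ, D1 = fun n => (if n ∈ Ico u v then 1 else 0) * D n := ⟨_, rfl⟩
  obtain ⟨Y1, hY1⟩ : ∃ Y1 : Finset ℤ, Y1 = Y.filter (fun x => l ≤ ‖∑ n ∈ Ico u v, cL Q M n * D (a * n + f x)‖) := ⟨_, rfl⟩
  obtain ⟨Y2, hY2⟩ : ∃ Y2 : Finset ℤ, Y2 = Y.filter (fun x => l ≤ ‖∑ n ∈ Icc (-(M : ℤ)) (2 * M), cB Q (cR 2) M n *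
    dil a D1 (-1 * n + f x)‖) := ⟨_, rfl⟩
  have hfin : ∀ T : Finset ℤ, (l * T.card) ^ (2 * r) ≤ Z → (T.card : ℝ) ≤ P / q ^ (c + 1) := by
    intro T hT
    have h1 := hT.trans hnum
    rw [← hl] at h1
    have h2 := le_of_pow_le_pow_left₀ (by omega) (by positivity) h1
    exact le_of_mul_le_mul_left h2 hl0
  have hb1 : (Y1.card : ℝ) ≤ P / q ^ (c + 1) := by
    apply hfin
    have h1 := count_bad X f hDSF hDσ hr1 ha (Ico u v) (cL Q M) Y1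
      (by rw [hY1]; exact (filter_subset _ _).trans hY) hl0 (by
        intro x hx
        rw [hY1, mem_filter] at hx
        exact hx.2)
    refine h1.trans ?_
    rw [hZ, ← hnnd]
    have h2 : ∑ n ∈ Ico u v, ‖cL Q M n‖ ^ 2 ≤ 8 * N * ((2 * q) ^ 3) ^ 2 := by
      have h3 : ∑ n ∈ Ico u v, ‖cL Q M n‖ ^ 2 ≤ 8 * N * q ^ 2 := by
        apply sum_norm_sq _ hq0.le fun n _ => hcL n
        rw [Int.card_Ico]
        have : (v - u).toNat ≤ 8 * N := by omega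
        exact_mod_cast this
      refine h3.trans ?_
      have h4 : q ^ 2 ≤ ((2 * q) ^ 3) ^ 2 := by
        apply pow_le_pow_left₀ hq0.le
        calc q ≤ 2 * q := by linarith
          _ ≤ (2 * q) ^ 3 := le_self_pow₀ (by linarith) (by norm_num)
      exact mul_le_mul_of_nonneg_left h4 (by positivity)
    apply mul_le_mul
    · exact pow_le_pow_left₀ (sum_nonneg fun _ _ => by positivity) h2 _
    · apply mul_le_mul_of_nonneg_right _ (by positivity)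
      exact pow_le_pow_left₀ (sum_nonneg fun _ _ => by positivity) hsD _
    · positivity
    · positivity
  have hb2 : (Y2.card : ℝ) ≤ P / q ^ (c + 1) := by
    apply hfin
    have hSF1 : SF D1 (Icc (-(M : ℤ)) (2 * M)) := by rw [hD1]; exact SF_mul' hDSF _
    have hcut : ∀ θ, ‖FT D1 θ‖ ≤ 2 * (M0 * N * w) * q := by
      intro θ
      rw [hD1]
      refine (cut_sup hDSF hDσ (m := 8 * M) (by omega) ?_ ?_ θ).trans ?_
      · intro n hn y hy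
        rw [mem_Icc] at hn
        rw [mem_Ico] at hy
        have hNM : (N : ℤ) ≤ M := by exact_mod_cast hMN
        rw [abs_lt]
        push_cast
        constructor <;> omega
      · have hNM : (N : ℤ) ≤ M := by exact_mod_cast hMN
        push_cast
        omega
      · apply mul_le_mul_of_nonneg_left _ (by positivity)
        push_cast
        exact hlog
    have h1 := count_bad X f (dil_SF ha hSF1) (σ := 2 * (M0 * N * w) * q) (by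
        intro θ
        rw [dil_FT ha hSF1]
        exact hcut _) hr1 (a := -1) (by norm_num) (Icc (-(M : ℤ)) (2 * M)) (cB Q (cR 2) M) Y2
      (by rw [hY2]; exact (filter_subset _ _).trans hY) hl0 (by
        intro x hx
        rw [hY2, mem_filter] at hx
        exact hx.2)
    refine h1.trans ?_
    rw [hZ, ← hnnd, dil_sq ha]
    have h2 : ∑ n ∈ Icc (-(M : ℤ)) (2 * M), ‖cB Q (cR 2) M n‖ ^ 2 ≤ 4 * (M0 * N) * (2 * q) ^ 2 :=
      sum_norm_sq hc3 (by positivity) fun n _ => hcB n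
    have h3 : ∑ n ∈ Icc (-(M : ℤ)) (2 * M), ‖D1 n‖ ^ 2 ≤ 4 * (M0 * N) * (2 * (2 * q)) ^ 2 := by
      apply sum_norm_sq hc3 (by positivity)
      intro n _
      rw [hD1]
      simp only
      rw [norm_mul]
      split_ifs
      · rw [norm_one, one_mul]; exact hDV n
      · rw [norm_zero, zero_mul]; positivity
    have h4 : (4 * (M0 * N) * (2 * q) ^ 2) ^ r * q ^ 2 ≤ (8 * N * ((2 * q) ^ 3) ^ 2) ^ r := by
      have e1 : q ^ 2 ≤ (q ^ 2) ^ r := le_self_pow₀ (one_le_pow₀ hq1) (by omega)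
      have e2 : (4 * (M0 * N) * (2 * q) ^ 2) * q ^ 2 ≤ 8 * N * ((2 * q) ^ 3) ^ 2 := by
        have e3 : M0 ≤ 32 * q ^ 2 := by nlinarith
        calc (4 * (M0 * N) * (2 * q) ^ 2) * q ^ 2 = M0 * (16 * N * q ^ 4) := by ring
          _ ≤ (32 * q ^ 2) * (16 * N * q ^ 4) := mul_le_mul_of_nonneg_right e3 (by positivity)
          _ = 8 * N * ((2 * q) ^ 3) ^ 2 := by ring
      calc (4 * (M0 * N) * (2 * q) ^ 2) ^ r * q ^ 2 ≤ (4 * (M0 * N) * (2 * q) ^ 2) ^ r * (q ^ 2) ^ r :=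
            mul_le_mul_of_nonneg_left e1 (by positivity)
        _ = ((4 * (M0 * N) * (2 * q) ^ 2) * q ^ 2) ^ r := (mul_pow _ _ _).symm
        _ ≤ _ := pow_le_pow_left₀ (by positivity) e2 _
    calc (∑ n ∈ Icc (-(M : ℤ)) (2 * M), ‖cB Q (cR 2) M n‖ ^ 2) ^ r *
        ((∑ n ∈ Icc (-(M : ℤ)) (2 * M), ‖D1 n‖ ^ 2) ^ (r - 1) * ((2 * (M0 * N * w) * q) ^ 2 * nn)) ≤
        (4 * (M0 * N) * (2 * q) ^ 2) ^ r *
        ((4 * (M0 * N) * (2 * (2 * q)) ^ 2) ^ (r - 1) * ((2 * (M0 * N * w) * q) ^ 2 * nn)) := by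
          apply mul_le_mul
          · exact pow_le_pow_left₀ (sum_nonneg fun _ _ => by positivity) h2 _
          · apply mul_le_mul_of_nonneg_right _ (by positivity)
            exact pow_le_pow_left₀ (sum_nonneg fun _ _ => by positivity) h3 _
          · positivity
          · positivity
      _ = ((4 * (M0 * N) * (2 * q) ^ 2) ^ r * q ^ 2) *
        ((4 * (M0 * N) * (2 * (2 * q)) ^ 2) ^ (r - 1) * ((2 * (M0 * N * w)) ^ 2 * nn)) := by ring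
      _ ≤ _ := mul_le_mul_of_nonneg_right h4 (by positivity)
  have hsub : Y ⊆ Y1 ∪ Y2 := by
    intro x hx
    by_contra hc
    rw [mem_union, hY1, hY2, mem_filter, mem_filter] at hc
    push Not at hc
    have h1 := hc.1 hx
    have h2 := hc.2 hx
    have h3 := hYl x hx
    rw [DI_pair ha Q M (f x) u v hS2] at h3
    rw [hD1, hD] at h2
    rw [hD] at h1
    have h4 := (lt_of_lt_of_le h3 (norm_add_le _ _))
    have h5 : 3 * l = N / q ^ 4 := by rw [hl]; push_cast; field_simp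
    have h6 : ‖∑ n ∈ Ico u v, cL Q M n * (cL Q M (a * n + f x) - cB Q (cR 2) M (a * n + f x))‖ < l := h1
    have h7 : ‖∑ z ∈ Icc (-(M : ℤ)) (2 * M), cB Q (cR 2) M z *
      dil a (fun n => (if n ∈ Ico u v then 1 else 0) * (cL Q M n - cB Q (cR 2) M n)) (-1 * z + f x)‖ < l := h2
    linarith
  have hcard : (Y.card : ℝ) ≤ Y1.card + Y2.card := by
    exact_mod_cast (card_le_card hsub).trans (card_union_le _ _)
  refine hcard.trans ((add_le_add hb1 hb2).trans ?_)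
  calc (P : ℝ) / q ^ (c + 1) + P / q ^ (c + 1) = 2 * (P / q ^ (c + 1)) := by ring
    _ ≤ q * (P / q ^ (c + 1)) := mul_le_mul_of_nonneg_right (by linarith) (by positivity)
    _ = P / q ^ c := by rw [pow_succ]; field_simp

end Pool.Agent.Helper86.SE
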