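import Pool.Agent.Helper85.HP.D8
import Pool.Agent.Helper86.UA.U6

set_option autoImplicit false

/-!
# Most scales, almost all systems of linear forms with large coefficients
-/

open Finset Filter Topology

namespace Pool.Agent.Helper86.SE

open Pool.Agent.H807R2.Dav hiding KK
open Pool.Agent.Helper86.PS hiding pa
open Pool.Agent.Helper86.XS
open Pool.Agent.Helper86.UA
open Pool.Agent.Helper85.HP

/-- the statement at the scale `N` -/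
def PFL (s : ℕ) (ε δ : ℝ) (N : ℕ) : Prop :=
  ∀ a : Fin s → ℤ, (∀ i, a i ≠ 0 ∧ ((|a i| : ℤ) : ℝ) ≤ (N : ℝ) ^ δ) →
    ∃ E : Finset (Fin s → ℤ), (E.card : ℝ) ≤ (N : ℝ) ^ ((s : ℝ) - 1 - δ) ∧
      ∀ h : Fin s → ℤ, (∀ i, ((|h i| : ℤ) : ℝ) ≤ (N : ℝ) ^ (1 + δ)) → (∀ e ∈ E, ∀ t : ℤ, h ≠ e + t • a) →
        (∀ p : ℕ, p.Prime → nuP a h p < p) → ∃ S : ℝ, HasProd (fun p : Nat.Primes => facP a h (p : ℕ)) S ∧
          ∀ u v : ℤ, -(N : ℤ) ≤ u → v ≤ N → (N : ℝ) ^ (1 - δ) ≤ ((v - u : ℤ) : ℝ) →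
            (∀ n ∈ Ico u v, ∀ i, 1 ≤ a i * n + h i) →
            |(pc a h u v : ℝ) - S * (((v - u : ℤ) : ℝ) / Real.log N ^ s)| ≤
              ε * (S * (((v - u : ℤ) : ℝ) / Real.log N ^ s))

theorem mostL (s : ℕ) (hs : 1 ≤ s) {ε : ℝ} (hε : 0 < ε) : ∃ δ : ℝ, 0 < δ ∧ MostSc ε (PFL s ε δ) := by
  classical
  have hsr : (1 : ℝ) ≤ s := by exact_mod_cast hs
  obtain ⟨ε0, hε0d⟩ : ∃ ε0 : ℝ, ε0 = min ε 1 := ⟨_, rfl⟩
  have hε00 : 0 < ε0 := by rw [hε0d]; exact lt_min hε one_pos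
  have hε01 : ε0 ≤ 1 := by rw [hε0d]; exact min_le_right _ _
  have hε0ε : ε0 ≤ ε := by rw [hε0d]; exact min_le_left _ _
  obtain ⟨E1, hE1⟩ := short_main
  obtain ⟨E2, hE2⟩ := Pool.Agent.TH823.PS.good_scales
  obtain ⟨E, hE⟩ : ∃ E : ℕ, E = E1 + E2 := ⟨_, rfl⟩
  obtain ⟨ε', hε'⟩ : ∃ ε' : ℝ, ε' = ε0 / (80 * s * 4 ^ s) := ⟨_, rfl⟩
  have h4s : (1 : ℝ) ≤ 4 ^ s := one_le_pow₀ (by norm_num)
  have hε'0 : 0 < ε' := by rw [hε']; positivity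
  have hε'1 : ε' ≤ 1 := by
    rw [hε', div_le_one (by positivity)]
    have : 1 ≤ (s : ℝ) * 4 ^ s := one_le_mul_of_one_le_of_one_le hsr h4s
    linarith
  have hpow : (3 + ε') ^ s - 3 ^ s ≤ ε0 / 80 := by
    refine (pow_three_small hε'0.le hε'1 s).trans (le_of_eq ?_)
    rw [hε']
    field_simp
  obtain ⟨L0, Q1, hQ1⟩ := hE1 E (by omega) ε' hε'0
  obtain ⟨k1, hk1⟩ := exists_nat_ge (160 * (s : ℝ) / ε0)
  obtain ⟨L1, hL1⟩ : ∃ L1 : ℕ, L1 = lE s + k1 + L0 + 6 := ⟨_, rfl⟩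
  obtain ⟨k2, hk2⟩ := exists_nat_ge (((L1 : ℝ) + 1) / ε0)
  obtain ⟨L2, hL2⟩ : ∃ L2 : ℕ, L2 = k2 + 1 := ⟨_, rfl⟩
  have hL1κ : 160 * (s : ℝ) ≤ ε0 * L1 := by
    have h1 : (k1 : ℝ) ≤ L1 := by exact_mod_cast (by omega : k1 ≤ L1)
    have h2 := hk1.trans h1
    rw [div_le_iff₀ hε00] at h2
    linarith
  have hL2κ : (L1 + 1 : ℝ) ≤ ε0 * L2 := by
    have h1 : (k2 : ℝ) ≤ L2 := by exact_mod_cast (by omega : k2 ≤ L2)
    have h2 := hk2.trans h1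
    rw [div_le_iff₀ hε00] at h2
    linarith
  obtain ⟨Q2, hQ2⟩ := fixed_scaleXU s hs hε00 hε01 L1 L2 (by omega) hL1κ (by omega)
  obtain ⟨Q3, hQ3⟩ := hw_of_short (L0 := L0) (L2 := L2 + 1)
  obtain ⟨k9, hk9⟩ := exists_nat_ge ((4 * (s : ℝ) / (ε0 / 10 / (8 * 3 ^ s))) ^ 2)
  obtain ⟨K0, hK0⟩ : ∃ K0 : ℕ, K0 = 8 + 2 * s + k9 := ⟨_, rfl⟩
  have hKρ : (4 * (s : ℝ) / (ε0 / 10 / (8 * 3 ^ s))) ^ 2 ≤ K0 :=
    hk9.trans (by exact_mod_cast (by omega : k9 ≤ K0))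
  obtain ⟨K, hK⟩ : ∃ K : ℕ, K = 64 * (s + 2) ^ 2 * L2 := ⟨_, rfl⟩
  have hK1 : 0 < K := by
    have : 0 < L2 := by omega
    rw [hK]
    positivity
  have hKr : (0 : ℝ) < K := by exact_mod_cast hK1
  obtain ⟨δ1, hδ1⟩ : ∃ δ1 : ℝ, δ1 = 1 / (64 * L2) := ⟨_, rfl⟩
  have hδ10 : 0 < δ1 := by
    have : (0 : ℝ) < L2 := by exact_mod_cast (by omega : 0 < L2)
    rw [hδ1]
    positivity
  obtain ⟨δ, hδ⟩ : ∃ δ : ℝ, δ = min δ1 (1 / K) / 2 := ⟨_, rfl⟩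
  have hδ0 : 0 < δ := by
    have := lt_min hδ10 (by positivity : (0 : ℝ) < 1 / K)
    rw [hδ]; positivity
  have hδ1' : δ ≤ δ1 := by
    have f1 := min_le_left δ1 (1 / (K : ℝ))
    rw [hδ]; linarith
  have hδK : δ * K ≤ 1 / 2 := by
    have f1 := min_le_right δ1 (1 / (K : ℝ))
    have f2 : δ ≤ 1 / K / 2 := by rw [hδ]; linarith
    calc δ * K ≤ 1 / K / 2 * K := mul_le_mul_of_nonneg_right f2 hKr.le
      _ = 1 / 2 := by field_simp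
  refine ⟨δ, hδ0, ?_⟩
  refine most_range (E := E) (L1 := L1) (L2 := L2) (Q0 := Q1 + Q2 + Q3 + (3 ^ K) ^ 2 + 3)
    (fun Q0 => hE2 E (by omega) 44 (by norm_num) Q0)
    (hL2κ.trans (mul_le_mul_of_nonneg_right hε0ε (Nat.cast_nonneg _))) ?_
  intro Q hQ hNE N hN1 hN2
  obtain ⟨b, hb0, hbs, hb⟩ := hQ1 Q (by omega) hNE
  have hQN : Q ≤ N := by
    have h3 : Q ≤ Q ^ L1 := Nat.le_self_pow (by omega) Q
    omega
  have hN1r : (1 : ℝ) ≤ N := by exact_mod_cast (by omega : 1 ≤ N)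
  have hN0 : (0 : ℝ) < N := by linarith
  obtain ⟨A, hA⟩ : ∃ A : ℕ, A = ⌈(N : ℝ) ^ δ⌉₊ := ⟨_, rfl⟩
  have hA1 : 1 ≤ A := by
    rw [hA]
    exact Nat.ceil_pos.2 (Real.rpow_pos_of_pos hN0 _)
  have hAle : (N : ℝ) ^ δ ≤ A := by rw [hA]; exact Nat.le_ceil _
  have hNδ1 : (1 : ℝ) ≤ (N : ℝ) ^ δ := Real.one_le_rpow hN1r hδ0.le
  have hAK : (A + 1) ^ K ≤ N := by
    have f1 : (A : ℝ) < (N : ℝ) ^ δ + 1 := by rw [hA]; exact Nat.ceil_lt_add_one (Real.rpow_nonneg hN0.le _)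
    have f2 : (A : ℝ) + 1 ≤ 3 * (N : ℝ) ^ δ := by linarith
    have f3 : ((A : ℝ) + 1) ^ K ≤ (3 * (N : ℝ) ^ δ) ^ K := pow_le_pow_left₀ (by positivity) f2 K
    have f4 : ((N : ℝ) ^ δ) ^ K ≤ √(N : ℝ) := by
      rw [← Real.rpow_natCast, ← Real.rpow_mul hN0.le, Real.sqrt_eq_rpow]
      exact Real.rpow_le_rpow_of_exponent_le hN1r hδK
    have f5 : (3 : ℝ) ^ K ≤ √(N : ℝ) := by
      apply Real.le_sqrt_of_sq_le
      have : (3 ^ K) ^ 2 ≤ N := by omega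
      exact_mod_cast this
    have f6 : ((A : ℝ) + 1) ^ K ≤ N := by
      calc ((A : ℝ) + 1) ^ K ≤ (3 * (N : ℝ) ^ δ) ^ K := f3
        _ = 3 ^ K * ((N : ℝ) ^ δ) ^ K := mul_pow _ _ _
        _ ≤ √(N : ℝ) * √(N : ℝ) := mul_le_mul f5 f4 (by positivity) (Real.sqrt_nonneg _)
        _ = N := Real.mul_self_sqrt hN0.le
    exact_mod_cast f6
  rw [hK] at hAK
  obtain ⟨hAQ, hA4⟩ := scale_A (L2 := L2) (by omega) hAK hN2
  have hNM : N ≤ (4 * A + 1) * N := Nat.le_mul_of_pos_left N (by omega)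
  have hw := hQ3 Q (by omega) b hb0 hb ((4 * A + 1) * N)
    (((Nat.pow_le_pow_right (by omega) (by omega : L0 + 6 ≤ L1)).trans hN1).trans hNM) (by
      calc (4 * A + 1) * N ≤ Q * Q ^ L2 := Nat.mul_le_mul hA4 hN2
        _ = Q ^ (L2 + 1) := by ring)
  have hp := hQ2 Q (by omega) A hA1 hAQ N hN1 hN2 b ∅ (HW_HX hw) (fun j hj => absurd hj (notMem_empty j)) ε' hbs hpow hε'1
    K0 (by omega) (by omega) hKρ
  rw [← hδ1] at hp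
  intro a ha
  have haA : ∀ i, a i ≠ 0 ∧ |a i| ≤ A := by
    intro i
    refine ⟨(ha i).1, ?_⟩
    have := (ha i).2.trans hAle
    exact_mod_cast this
  obtain ⟨E1, hE1, hE1'⟩ := hp a haA
  refine ⟨E1, hE1.trans (Real.rpow_le_rpow_of_exponent_le hN1r (by linarith)), fun h hh hne hadm => ?_⟩
  obtain ⟨S, hS, hS2⟩ := hE1' h (by
    intro i
    have f1 := hh i
    rw [Real.rpow_add hN0, Real.rpow_one] at f1
    have f2 : ((|h i| : ℤ) : ℝ) ≤ A * N := by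
      refine f1.trans ?_
      rw [mul_comm]
      exact mul_le_mul_of_nonneg_right hAle hN0.le
    exact_mod_cast f2) hne hadm (fun j hj => absurd hj (notMem_empty j))
  refine ⟨S, hS, fun u v hu hv hW hpos => ?_⟩
  have h1 := hS2 u v hu hv ((Real.rpow_le_rpow_of_exponent_le hN1r (by linarith)).trans hW) hpos
  refine h1.trans ?_
  have h2 : 0 ≤ ε0 * (S * (((v - u : ℤ) : ℝ) / Real.log N ^ s)) := (abs_nonneg _).trans h1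
  have h3 : 0 ≤ S * (((v - u : ℤ) : ℝ) / Real.log N ^ s) := nonneg_of_mul_nonneg_right h2 hε00
  exact mul_le_mul_of_nonneg_right hε0ε h3

end Pool.Agent.Helper86.SE
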