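import Pool.Agent.Helper85.HP.D8
import Pool.Agent.Helper86.SE.D
import Pool.Agent.Helper86.SE.H

set_option autoImplicit false

/-!
# Most scales, families of small energy
-/

open Finset Filter Topology

namespace Pool.Agent.Helper86.SE

open Pool.Agent.H807R2.Dav hiding KK
open Pool.Agent.Helper86.PS hiding pa
open Pool.Agent.Helper86.XS
open Pool.Agent.Helper85.HP

/-- the statement at the scale `N` -/
def PFM (s K : ℕ) (ε δ : ℝ) (N : ℕ) : Prop :=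
  ∀ a : Fin s → ℤ, (∀ i, a i ≠ 0 ∧ ((|a i| : ℤ) : ℝ) ≤ (N : ℝ) ^ δ) →
    ∀ (r : Fin s → ℕ) (X : Fin s → Finset ℤ) (f : Fin s → ℤ → ℤ), (∀ i, 1 ≤ r i ∧ r i ≤ K) →
    (∀ i, SmallE δ N (r i) (X i) (f i)) →
    ∃ E : Finset (Fin s → ℤ), (E.card : ℝ) ≤ (N : ℝ) ^ (-δ) * ∏ i, ((X i).card : ℝ) ∧
      ∀ x : Fin s → ℤ, (∀ i, x i ∈ X i) → x ∉ E →
        ∀ h : Fin s → ℤ, (∀ i, ((|h i - f i (x i)| : ℤ) : ℝ) ≤ (N : ℝ) ^ δ) →
        (∀ p : ℕ, p.Prime → nuP a h p < p) → ∃ S : ℝ, HasProd (fun p : Nat.Primes => facP a h (p : ℕ)) S ∧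
          ∀ u v : ℤ, -(N : ℤ) ≤ u → v ≤ N → (N : ℝ) ^ (1 - δ) ≤ ((v - u : ℤ) : ℝ) →
            (∀ n ∈ Ico u v, ∀ i, 1 ≤ a i * n + h i) →
            |(pc a h u v : ℝ) - S * (((v - u : ℤ) : ℝ) / Real.log N ^ s)| ≤
              ε * (S * (((v - u : ℤ) : ℝ) / Real.log N ^ s))

theorem mostF (s : ℕ) (hs : 1 ≤ s) (K : ℕ) {ε : ℝ} (hε : 0 < ε) : ∃ δ : ℝ, 0 < δ ∧ MostSc ε (PFM s K ε δ) := by
  classical
  have hsr : (1 : ℝ) ≤ s := by exact_mod_cast hs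
  obtain ⟨ε0, hε0d⟩ : ∃ ε0 : ℝ, ε0 = min ε 1 := ⟨_, rfl⟩
  have hε00 : 0 < ε0 := by rw [hε0d]; exact lt_min hε one_pos
  have hε01 : ε0 ≤ 1 := by rw [hε0d]; exact min_le_right _ _
  have hε0ε : ε0 ≤ ε := by rw [hε0d]; exact min_le_left _ _
  obtain ⟨E1, hE1⟩ := short_main
  obtain ⟨E2, hE2⟩ := Pool.Agent.TH823.PS.good_scales
  obtain ⟨E, hE⟩ : ∃ E : ℕ, E = E1 + E2 := ⟨_, rfl⟩
  obtain ⟨ε', hε'⟩ : ∃ ε' : ℝ, ε' = ε0 / (80 * s * 4 ^ s) := ⟨_, rfl⟩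
  have h4s : (1 : ℝ) ≤ 4 ^ s := one_le_pow₀ (by norm_num)
  have hε'0 : 0 < ε' := by rw [hε']; positivity
  have hε'1 : ε' ≤ 1 := by
    rw [hε', div_le_one (by positivity)]
    have : 1 ≤ (s : ℝ) * 4 ^ s := one_le_mul_of_one_le_of_one_le hsr h4s
    linarith
  have hpow : (3 + ε') ^ s - 3 ^ s ≤ ε0 / 80 := by
    refine (pow_three_small hε'0.le hε'1 s).trans (le_of_eq ?_)
    rw [hε']
    field_simp
  obtain ⟨L0, Q1, hQ1⟩ := hE1 E (by omega) ε' hε'0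
  obtain ⟨k1, hk1⟩ := exists_nat_ge (160 * (s : ℝ) / ε0)
  obtain ⟨L1, hL1⟩ : ∃ L1 : ℕ, L1 = lE s + k1 + L0 + 6 := ⟨_, rfl⟩
  obtain ⟨k2, hk2⟩ := exists_nat_ge (((L1 : ℝ) + 1) / ε0)
  obtain ⟨L2, hL2⟩ : ∃ L2 : ℕ, L2 = k2 + 1 := ⟨_, rfl⟩
  have hL1κ : 160 * (s : ℝ) ≤ ε0 * L1 := by
    have h1 : (k1 : ℝ) ≤ L1 := by exact_mod_cast (by omega : k1 ≤ L1)
    have h2 := hk1.trans h1
    rw [div_le_iff₀ hε00] at h2
    linarith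
  have hL2κ : (L1 + 1 : ℝ) ≤ ε0 * L2 := by
    have h1 : (k2 : ℝ) ≤ L2 := by exact_mod_cast (by omega : k2 ≤ L2)
    have h2 := hk2.trans h1
    rw [div_le_iff₀ hε00] at h2
    linarith
  obtain ⟨E', hE'⟩ : ∃ E' : ℕ, E' = 2 + 2 * (2 * K) * (s + ((2 * s + 1) + 10) + 6) + 32 := ⟨_, rfl⟩
  obtain ⟨m, hm⟩ : ∃ m : ℕ, m = (s + 2) ^ 2 + 2 * (2 * K + 2) := ⟨_, rfl⟩
  have hmK : 2 * (2 * K + 2) ≤ m := by rw [hm]; exact Nat.le_add_left _ _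
  have hms : (s + 2) ^ 2 ≤ m := by rw [hm]; exact Nat.le_add_right _ _
  have hm1 : 1 ≤ m := le_trans (Nat.one_le_pow _ _ (by omega)) hms
  clear hm
  obtain ⟨δ, hδ⟩ : ∃ δ : ℝ, δ = 1 / (2 * ((2 * E' * m * L2 : ℕ) : ℝ)) := ⟨_, rfl⟩
  have hδ0 : 0 < δ := by
    have h1 : 0 < 2 * E' * m * L2 := by
      have h2 : 0 < m := hm1
      have h3 : 0 < L2 := by omega
      have h4 : 0 < 2 * E' := by omega
      positivity
    have h5 : (0 : ℝ) < ((2 * E' * m * L2 : ℕ) : ℝ) := by exact_mod_cast h1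
    rw [hδ]
    positivity
  obtain ⟨N4, hN4⟩ := small_coeff (k := 2 * E') (m := m) (L := L2) (by omega) (by omega) hδ hm1
  obtain ⟨Q2, hQ2⟩ := exFF s hs (2 * K) L1 L2 E' (by omega) (by omega) (by omega) (by omega)
  obtain ⟨Q3, hQ3⟩ := hw_of_short (L0 := L0) (L2 := L2 + 1)
  obtain ⟨Q4, hQ4⟩ := per_hXE (E := 2 * E') (by omega) s hs (κ := ε0 / 10) (by positivity) (by linarith) L1 L2 (by omega) (by linarith)
  obtain ⟨k9, hk9⟩ := exists_nat_ge ((4 * (s : ℝ) / (ε0 / 10 / (8 * 3 ^ s))) ^ 2)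
  obtain ⟨K0, hK0⟩ : ∃ K0 : ℕ, K0 = 8 + 2 * s + k9 := ⟨_, rfl⟩
  have hKρ : (4 * (s : ℝ) / (ε0 / 10 / (8 * 3 ^ s))) ^ 2 ≤ K0 :=
    hk9.trans (by exact_mod_cast (by omega : k9 ≤ K0))
  refine ⟨δ, hδ0, ?_⟩
  refine most_range (E := E) (L1 := L1) (L2 := L2) (Q0 := Q1 + Q2 + Q3 + Q4 + N4 + 3)
    (fun Q0 => hE2 E (by omega) 44 (by norm_num) Q0)
    (hL2κ.trans (mul_le_mul_of_nonneg_right hε0ε (Nat.cast_nonneg _))) ?_
  intro Q hQ hNE N hN1 hN2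
  obtain ⟨b, hb0, hbs, hb⟩ := hQ1 Q (by omega) hNE
  have hQN : Q ≤ N := by
    have h3 : Q ≤ Q ^ L1 := Nat.le_self_pow (by omega) Q
    omega
  obtain ⟨⟨hA1, hAle, h3⟩, hsc⟩ := hN4 N (by omega)
  obtain ⟨A, hA⟩ : ∃ A : ℕ, A = ⌈(N : ℝ) ^ δ⌉₊ := ⟨_, rfl⟩
  rw [← hA] at hA1 hAle hsc
  have hN1r : (1 : ℝ) ≤ N := by exact_mod_cast (by omega : 1 ≤ N)
  have hN0 : (0 : ℝ) < N := by linarith
  obtain ⟨ha1, ha2⟩ := hsc Q L2 le_rfl (by omega) hN2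
  have hAQ : (A + 1) ^ (2 * E' * (s + 2) ^ 2) ≤ Q := AS_powE ha1 (Nat.mul_le_mul_left _ hms)
  have hA4 := four_A (e := 2 * E') (by omega) hAQ
  have hNM : N ≤ (4 * A + 1) * N := Nat.le_mul_of_pos_left _ (by omega)
  have hw := hQ3 Q (by omega) b hb0 hb ((4 * A + 1) * N)
    (((Nat.pow_le_pow_right (by omega) (by omega : L0 + 6 ≤ L1)).trans hN1).trans hNM) (by
      calc (4 * A + 1) * N ≤ Q * Q ^ L2 := Nat.mul_le_mul hA4 hN2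
        _ = Q ^ (L2 + 1) := by ring)
  have hNδ0 : 0 < (N : ℝ) ^ δ := Real.rpow_pos_of_pos hN0 _
  have h2δ : (N : ℝ) ^ (2 * δ) = (N : ℝ) ^ δ * (N : ℝ) ^ δ := by
    rw [← Real.rpow_add hN0]; congr 1; ring
  have hδ2δ : (N : ℝ) ^ δ ≤ (N : ℝ) ^ (2 * δ) := Real.rpow_le_rpow_of_exponent_le hN1r (by linarith)
  have hsplit : (N : ℝ) = (N : ℝ) ^ δ * (N : ℝ) ^ (1 - δ) := by
    rw [← Real.rpow_add hN0]
    have : δ + (1 - δ) = 1 := by ring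
    rw [this, Real.rpow_one]
  obtain ⟨q, hq⟩ : ∃ q : ℝ, q = qk (2 * E') Q := ⟨_, rfl⟩
  rw [← hq] at ha2
  have hNq : (N : ℝ) ^ δ ≤ q := hδ2δ.trans ha2
  have hq0 : 0 < q := lt_of_lt_of_le hNδ0 hNq
  intro a ha rr X f hrr hXf
  have haA : ∀ i, |a i| ≤ A := by
    intro i
    have := (ha i).2.trans hAle
    exact_mod_cast this
  have ha0 : ∀ i, a i ≠ 0 := fun i => (ha i).1
  obtain ⟨δ1, hδ1⟩ : ∃ δ1 : ℝ, δ1 = 1 / (((2 * E' : ℕ) : ℝ) * L2) := ⟨_, rfl⟩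
  have hδ1' : δ ≤ δ1 := by
    rw [hδ, hδ1]
    have e1 : (0 : ℝ) < ((2 * E' : ℕ) : ℝ) := by exact_mod_cast (by omega : 0 < 2 * E')
    have e2 : (0 : ℝ) < L2 := by exact_mod_cast (by omega : 0 < L2)
    have e3 : (1 : ℝ) ≤ m := by exact_mod_cast hm1
    apply one_div_le_one_div_of_le (by positivity)
    have e4 : ((2 * E' * m * L2 : ℕ) : ℝ) = m * (((2 * E' : ℕ) : ℝ) * L2) := by push_cast; ring
    rw [e4]
    have e5 : 0 < ((2 * E' : ℕ) : ℝ) * L2 := by positivity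
    nlinarith
  have hexp : ∀ x : ℝ, (N : ℝ) ^ (x - δ1) ≤ (N : ℝ) ^ (x - δ) := fun x =>
    Real.rpow_le_rpow_of_exponent_le hN1r (by linarith)
  have hAq : ((A : ℝ) + 1) ^ (2 * (2 * K + 2)) ≤ qk (2 * E') Q := Pool.Agent.Helper86.PE.AS_qk (by omega) ha1 hmK
  obtain ⟨E1, hE1, hE1'⟩ := hQ2 Q (by omega) A hA1 hA4 hAq N hN1 hN2 b hw (by linarith) a ha0 rr X f
    (fun i => ⟨(hrr i).1, Nat.mul_le_mul_left 2 (hrr i).2⟩)
    (fun i => by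
      rw [← hδ1]
      exact (mul_le_mul_of_nonneg_right (hexp 1) (Nat.cast_nonneg _)).trans (hXf i).2) (fun i x hx => by
      have f1 := (hXf i).1 x hx
      rw [Real.rpow_add hN0, Real.rpow_one] at f1
      have f2 : ((|f i x| : ℤ) : ℝ) ≤ A * N := by
        refine f1.trans ?_
        rw [mul_comm]
        exact mul_le_mul_of_nonneg_right hAle hN0.le
      exact_mod_cast f2)
  rw [← hδ1] at hE1 hE1'
  refine ⟨E1, ?_, fun x hx hxE h hh hadm => ?_⟩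
  · refine hE1.trans ?_
    apply mul_le_mul_of_nonneg_right _ (prod_nonneg fun _ _ => Nat.cast_nonneg _)
    exact Real.rpow_le_rpow_of_exponent_le hN1r (by linarith)
  · obtain ⟨hhA, hG1⟩ := hE1' x hx hxE h (fun i => (hh i).trans (Real.rpow_le_rpow_of_exponent_le hN1r hδ1'))
    obtain ⟨S, hS⟩ := exists_facP ha0 hG1.1 hadm
    have hNz : (0 : ℤ) ≤ N := Int.natCast_nonneg _
    refine ⟨S, hS, fun u v hu hv hW hpos => ?_⟩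
    have h1 := hQ4 Q (by omega) A hAQ N hN1 hN2 b ∅ (HW_HX hw) (fun j hj => absurd hj (notMem_empty j)) ε' hbs (by linarith) K0
      (by omega) (by omega) hKρ a h ha0 haA hhA hG1.1 (fun j hj => absurd hj (notMem_empty j)) hadm hG1.2 S hS u v
      (by linarith) (by linarith) (by
        refine le_trans ?_ hW
        rw [← hq, div_le_iff₀ hq0]
        calc (N : ℝ) = (N : ℝ) ^ δ * (N : ℝ) ^ (1 - δ) := hsplit
          _ ≤ q * (N : ℝ) ^ (1 - δ) := mul_le_mul_of_nonneg_right hNq (Real.rpow_nonneg hN0.le _)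
          _ = _ := mul_comm _ _) hpos
    have e2 : 10 * (ε0 / 10) = ε0 := by ring
    rw [e2] at h1
    refine h1.trans ?_
    have h2 : 0 ≤ ε0 * (S * (((v - u : ℤ) : ℝ) / Real.log N ^ s)) := (abs_nonneg _).trans h1
    have h3 : 0 ≤ S * (((v - u : ℤ) : ℝ) / Real.log N ^ s) := nonneg_of_mul_nonneg_right h2 hε00
    exact mul_le_mul_of_nonneg_right hε0ε h3

end Pool.Agent.Helper86.SE
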