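import Pool.Agent.Helper86.SE.H

set_option autoImplicit false

/-!
# Families indexed by arbitrary finite sets
-/

open Finset Filter Topology

namespace Pool.Agent.Helper86.SE

open Pool.Agent.Helper85.HP

/-- a family indexed by any finite set is a family indexed by integers -/
lemma transfer {α : Type} (X : Finset α) (f : α → ℤ) : ∃ (X' : Finset ℤ) (f' : ℤ → ℤ) (e : α → ℤ),
    Set.InjOn e X ∧ (∀ x ∈ X, e x ∈ X') ∧ (∀ z ∈ X', ∃ x ∈ X, e x = z) ∧ X'.card = X.card ∧ (∀ x ∈ X, f' (e x) = f x) ∧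
    ∀ r : ℕ, nrg X' f' r ≤ ((Fintype.piFinset (fun _ : Fin r => X) ×ˢ Fintype.piFinset (fun _ : Fin r => X)).filter
      (fun p => ∑ i, f (p.1 i) = ∑ i, f (p.2 i))).card := by
  classical
  obtain ⟨e, he⟩ : ∃ e : α → ℤ, e = fun x => if h : x ∈ X then (((X.equivFin ⟨x, h⟩ : Fin X.card) : ℕ) : ℤ) else -1 := ⟨_, rfl⟩
  have hinj : Set.InjOn e X := by
    intro x hx y hy hxy
    rw [he] at hxy
    simp only at hxy
    rw [dif_pos (mem_coe.1 hx), dif_pos (mem_coe.1 hy)] at hxy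
    have h1 : X.equivFin ⟨x, mem_coe.1 hx⟩ = X.equivFin ⟨y, mem_coe.1 hy⟩ := Fin.ext (by exact_mod_cast hxy)
    have h2 := X.equivFin.injective h1
    exact congrArg Subtype.val h2
  obtain ⟨f', hf'⟩ : ∃ f' : ℤ → ℤ, f' = fun z => if h : ∃ x ∈ X, e x = z then f (Classical.choose h) else 0 := ⟨_, rfl⟩
  have hfe : ∀ x ∈ X, f' (e x) = f x := by
    intro x hx
    have h : ∃ y ∈ X, e y = e x := ⟨x, hx, rfl⟩
    rw [hf']
    simp only
    rw [dif_pos h]
    have h1 := Classical.choose_spec h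
    rw [hinj (mem_coe.2 h1.1) (mem_coe.2 hx) h1.2]
  refine ⟨X.image e, f', e, hinj, fun x hx => mem_image_of_mem e hx, fun z hz => ?_, card_image_of_injOn hinj, hfe, fun r => ?_⟩
  · obtain ⟨x, hx, hxz⟩ := mem_image.1 hz
    exact ⟨x, hx, hxz⟩
  · unfold nrg
    apply card_le_card_of_surjOn (fun p : (Fin r → α) × (Fin r → α) => (fun i => e (p.1 i), fun i => e (p.2 i)))
    intro p hp
    rw [mem_coe, mem_filter, mem_product, Fintype.mem_piFinset, Fintype.mem_piFinset] at hp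
    obtain ⟨⟨hp1, hp2⟩, hs⟩ := hp
    have h1 : ∀ i, ∃ x ∈ X, e x = p.1 i := fun i => mem_image.1 (hp1 i)
    have h2 : ∀ i, ∃ x ∈ X, e x = p.2 i := fun i => mem_image.1 (hp2 i)
    choose g1 hg1 hg1' using h1
    choose g2 hg2 hg2' using h2
    refine ⟨(g1, g2), ?_, ?_⟩
    · rw [mem_coe, mem_filter, mem_product, Fintype.mem_piFinset, Fintype.mem_piFinset]
      refine ⟨⟨hg1, hg2⟩, ?_⟩
      have e1 : ∑ i, f (g1 i) = ∑ i, f' (p.1 i) := sum_congr rfl fun i _ => by rw [← hfe _ (hg1 i), hg1' i]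
      have e2 : ∑ i, f (g2 i) = ∑ i, f' (p.2 i) := sum_congr rfl fun i _ => by rw [← hfe _ (hg2 i), hg2' i]
      simp only
      rw [e1, e2]
      exact hs
    · apply Prod.ext
      · funext i; exact hg1' i
      · funext i; exact hg2' i

end Pool.Agent.Helper86.SE
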