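import Pool.Agent.Helper86.SE.T

set_option autoImplicit false

/-!
# Families of small energy: integer polynomials
-/

open Finset Filter Topology Polynomial

namespace Pool.Agent.Helper86.SE

open Pool.Agent.Helper85.HP
open Pool.Agent.Helper86.PS

/-- the values of integer polynomials -/
lemma pol_small (K : ℕ) {δ : ℝ} (hδ : 0 < δ) : ∃ δ' : ℝ, 0 < δ' ∧ ∃ N₀ : ℕ, ∀ N : ℕ, N₀ ≤ N → ∀ (P : ℕ) (F : ℤ[X]),
    1 ≤ F.natDegree → F.natDegree ≤ K → (N : ℝ) ^ (1 - δ') ≤ (P : ℝ) ^ F.natDegree →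
    (∀ x : ℕ, x < P → ((|F.eval (x : ℤ)| : ℤ) : ℝ) ≤ (N : ℝ) ^ (1 + δ')) →
    (N : ℝ) ^ (1 - δ) * (((Fintype.piFinset (fun _ : Fin (2 ^ (F.natDegree - 1)) => range P) ×ˢ
      Fintype.piFinset (fun _ : Fin (2 ^ (F.natDegree - 1)) => range P)).filter
      (fun p => ∑ i, F.eval ((p.1 i : ℕ) : ℤ) = ∑ i, F.eval ((p.2 i : ℕ) : ℤ))).card : ℝ) ≤
      (P : ℝ) ^ (2 * 2 ^ (F.natDegree - 1)) := by
  classical
  obtain ⟨C, hC, hnrg⟩ := hua_all K (η := δ / 16) (by positivity)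
  obtain ⟨N₁, hN₁⟩ := ev_log (2 * C) 0 (a := δ / 4) (by positivity)
  refine ⟨min 1 (δ / 4), lt_min one_pos (by positivity), N₁ + 1, fun N hN P F hF1 hFK hPN hFB => ?_⟩
  obtain ⟨δ', hδ'⟩ : ∃ δ' : ℝ, δ' = min 1 (δ / 4) := ⟨_, rfl⟩
  rw [← hδ'] at hPN hFB
  have hd1 : δ' ≤ 1 := by rw [hδ']; exact min_le_left _ _
  have hd2 : δ' ≤ δ / 4 := by rw [hδ']; exact min_le_right _ _
  have hN1r : (1 : ℝ) ≤ N := by exact_mod_cast (by omega : 1 ≤ N)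
  have hN0 : (0 : ℝ) < N := by linarith
  have hmon : ∀ x z : ℝ, x ≤ z → (N : ℝ) ^ x ≤ (N : ℝ) ^ z := fun x z h => Real.rpow_le_rpow_of_exponent_le hN1r h
  obtain ⟨d, hd⟩ : ∃ d : ℕ, d = F.natDegree := ⟨_, rfl⟩
  rw [← hd] at hF1 hFK hPN ⊢
  have hP1 : 1 ≤ P := by
    by_contra hc
    have h0 : P = 0 := by omega
    rw [h0, Nat.cast_zero, zero_pow (by omega)] at hPN
    have := Real.rpow_pos_of_pos hN0 (1 - δ')
    linarith
  have hP0 : (0 : ℝ) < P := by exact_mod_cast hP1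
  have h1 := hnrg d hF1 hFK (fun x => F.eval x) ⟨F, hd.symm, fun y => rfl⟩ P hP1 (N ^ 2) (Nat.one_le_pow _ _ (by omega)) (by
    intro x hx
    rw [mem_Ico] at hx
    obtain ⟨k, rfl⟩ := Int.eq_ofNat_of_zero_le hx.1
    have h2 := hFB k (by exact_mod_cast hx.2)
    have h3 : (N : ℝ) ^ (1 + δ') ≤ (N : ℝ) ^ (2 : ℝ) := hmon _ _ (by linarith)
    have h4 : ((|F.eval (k : ℤ)| : ℤ) : ℝ) ≤ ((N ^ 2 : ℕ) : ℝ) := by
      refine (h2.trans h3).trans (le_of_eq ?_)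
      push_cast
      norm_cast
    exact_mod_cast h4)
  have hle : (((Fintype.piFinset (fun _ : Fin (2 ^ (d - 1)) => range P) ×ˢ
      Fintype.piFinset (fun _ : Fin (2 ^ (d - 1)) => range P)).filter
      (fun p => ∑ i, F.eval ((p.1 i : ℕ) : ℤ) = ∑ i, F.eval ((p.2 i : ℕ) : ℤ))).card : ℝ) ≤
      (nrg (Ico (0 : ℤ) P) (fun x => F.eval x) (2 ^ (d - 1)) : ℝ) := by
    have : ((Fintype.piFinset (fun _ : Fin (2 ^ (d - 1)) => range P) ×ˢ
      Fintype.piFinset (fun _ : Fin (2 ^ (d - 1)) => range P)).filter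
      (fun p => ∑ i, F.eval ((p.1 i : ℕ) : ℤ) = ∑ i, F.eval ((p.2 i : ℕ) : ℤ))).card ≤
      nrg (Ico (0 : ℤ) P) (fun x => F.eval x) (2 ^ (d - 1)) := by
      unfold nrg
      apply card_le_card_of_injOn (fun p : (Fin (2 ^ (d - 1)) → ℕ) × (Fin (2 ^ (d - 1)) → ℕ) =>
        ((fun i => ((p.1 i : ℕ) : ℤ)), (fun i => ((p.2 i : ℕ) : ℤ))))
      · intro p hp
        rw [mem_coe, mem_filter, mem_product, Fintype.mem_piFinset, Fintype.mem_piFinset] at hp ⊢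
        obtain ⟨⟨hp1, hp2⟩, hs⟩ := hp
        refine ⟨⟨fun i => ?_, fun i => ?_⟩, hs⟩
        · have := mem_range.1 (hp1 i)
          exact mem_Ico.2 ⟨Int.natCast_nonneg _, Int.ofNat_lt.2 this⟩
        · have := mem_range.1 (hp2 i)
          exact mem_Ico.2 ⟨Int.natCast_nonneg _, Int.ofNat_lt.2 this⟩
      · intro p _ p' _ h
        simp only [Prod.mk.injEq] at h
        apply Prod.ext
        · funext i
          have := congrFun h.1 i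
          simpa using this
        · funext i
          have := congrFun h.2 i
          simpa using this
    exact_mod_cast this
  have hdd : 2 * 2 ^ (d - 1) = 2 ^ d := by
    obtain ⟨e, he⟩ : ∃ e, d = e + 1 := ⟨d - 1, by omega⟩
    rw [he, Nat.add_sub_cancel, pow_succ]; ring
  have hdle : d ≤ 2 ^ d := Nat.lt_two_pow_self.le
  rw [hdd]
  have hBη : ((N ^ 2 : ℕ) : ℝ) ^ (δ / 16) = (N : ℝ) ^ (δ / 8) := by
    push_cast
    rw [← Real.rpow_natCast, ← Real.rpow_mul hN0.le]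
    congr 1
    push_cast
    ring
  rw [hBη] at h1
  have hPd : (P : ℝ) ^ (2 ^ d - d) * (P : ℝ) ^ d = (P : ℝ) ^ (2 ^ d) := by
    rw [← pow_add]
    congr 1
    omega
  have hC0 : 0 < C := by linarith
  have h2 : (N : ℝ) ^ (1 - δ) ≤ (N : ℝ) ^ (-(3 * δ / 4)) * (P : ℝ) ^ d := by
    calc (N : ℝ) ^ (1 - δ) ≤ (N : ℝ) ^ (-(3 * δ / 4) + (1 - δ')) := hmon _ _ (by linarith)
      _ = (N : ℝ) ^ (-(3 * δ / 4)) * (N : ℝ) ^ (1 - δ') := Real.rpow_add hN0 _ _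
      _ ≤ _ := mul_le_mul_of_nonneg_left hPN (Real.rpow_nonneg hN0.le _)
  have h3 : C * (N : ℝ) ^ (δ / 8) ≤ (N : ℝ) ^ (3 * δ / 4) := by
    have e1 := hN₁ N (by omega)
    rw [pow_zero, mul_one] at e1
    have e2 : (N : ℝ) ^ (δ / 8) * (N : ℝ) ^ (δ / 4) ≤ (N : ℝ) ^ (3 * δ / 4) := by
      rw [← Real.rpow_add hN0]
      exact hmon _ _ (by linarith)
    refine le_trans ?_ e2
    rw [mul_comm]
    apply mul_le_mul_of_nonneg_left _ (Real.rpow_nonneg hN0.le _)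
    linarith
  calc (N : ℝ) ^ (1 - δ) * _ ≤ ((N : ℝ) ^ (-(3 * δ / 4)) * (P : ℝ) ^ d) * (C * (N : ℝ) ^ (δ / 8) * (P : ℝ) ^ (2 ^ d - d)) :=
        mul_le_mul h2 (hle.trans h1) (Nat.cast_nonneg _) (by positivity)
    _ = ((N : ℝ) ^ (-(3 * δ / 4)) * (C * (N : ℝ) ^ (δ / 8))) * ((P : ℝ) ^ (2 ^ d - d) * (P : ℝ) ^ d) := by ring
    _ ≤ ((N : ℝ) ^ (-(3 * δ / 4)) * (N : ℝ) ^ (3 * δ / 4)) * (P : ℝ) ^ (2 ^ d) := by
        rw [hPd]
        apply mul_le_mul_of_nonneg_right _ (by positivity)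
        exact mul_le_mul_of_nonneg_left h3 (Real.rpow_nonneg hN0.le _)
    _ = (P : ℝ) ^ (2 ^ d) := by
        rw [← Real.rpow_add hN0]
        have : -(3 * δ / 4) + 3 * δ / 4 = 0 := by ring
        rw [this, Real.rpow_zero, one_mul]

end Pool.Agent.Helper86.SE
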