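import Pool.Agent.Helper85.RP.Slice
import Pool.Agent.Helper86.SE.V1

set_option autoImplicit false

/-!
# Families of small energy: real polynomials
-/

open Finset Filter Topology Polynomial

namespace Pool.Agent.Helper86.SE

open Pool.Agent.Helper85.HP
open Pool.Agent.Helper86.PS

open Pool.Agent.Helper85.RP in
open Pool.Agent.TH935.GF in
/-- the integer parts of the values of real polynomials in several variables -/
lemma real_small (n d : ℕ) (hd : 1 ≤ d) (Φ : MvPolynomial (Fin n) ℝ) (hΦ : Φ.IsHomogeneous d) (hΦ0 : Φ ≠ 0) :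
    ∃ t : ℕ, 1 ≤ t ∧ ∀ δ : ℝ, 0 < δ → ∃ N₀ : ℕ, ∀ N : ℕ, N₀ ≤ N → ∀ P : ℕ, (N : ℝ) ^ (1 - δ / 2) ≤ (P : ℝ) ^ d →
      ∀ G : MvPolynomial (Fin n) ℝ, G.totalDegree < d →
      (N : ℝ) ^ (1 - δ) * (((Fintype.piFinset (fun _ : Fin t => Fintype.piFinset (fun _ : Fin n => Icc (-(P : ℤ)) P)) ×ˢ
        Fintype.piFinset (fun _ : Fin t => Fintype.piFinset (fun _ : Fin n => Icc (-(P : ℤ)) P))).filter
        (fun p => ∑ i, ⌊MvPolynomial.eval (fun j => ((p.1 i) j : ℝ)) (Φ + G)⌋ =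
          ∑ i, ⌊MvPolynomial.eval (fun j => ((p.2 i) j : ℝ)) (Φ + G)⌋)).card : ℝ) ≤
        ((Fintype.piFinset (fun _ : Fin n => Icc (-(P : ℤ)) P)).card : ℝ) ^ (2 * t) := by
  classical
  obtain ⟨t, ht, C, hC, h⟩ := energy_box n d hd Φ hΦ hΦ0
  refine ⟨t, ht, fun δ hδ => ?_⟩
  obtain ⟨N₁, hN₁⟩ := ev_log C 0 (a := δ / 2) (by positivity)
  refine ⟨N₁ + 1, fun N hN P hPN G hG => ?_⟩
  have hN1r : (1 : ℝ) ≤ N := by exact_mod_cast (by omega : 1 ≤ N)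
  have hN0 : (0 : ℝ) < N := by linarith
  have hP1 : 1 ≤ P := by
    by_contra hc
    have h0 : P = 0 := by omega
    rw [h0, Nat.cast_zero, zero_pow (by omega)] at hPN
    have := Real.rpow_pos_of_pos hN0 (1 - δ / 2)
    linarith
  obtain ⟨X, hX⟩ : ∃ X : Finset (Fin n → ℤ), X = Fintype.piFinset (fun _ : Fin n => Icc (-(P : ℤ)) P) := ⟨_, rfl⟩
  obtain ⟨f, hf⟩ : ∃ f : (Fin n → ℤ) → ℤ, f = fun x => ⌊MvPolynomial.eval (fun i => (x i : ℝ)) (Φ + G)⌋ := ⟨_, rfl⟩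
  have hle : ((Fintype.piFinset (fun _ : Fin t => X) ×ˢ Fintype.piFinset (fun _ : Fin t => X)).filter
      (fun p => ∑ i, f (p.1 i) = ∑ i, f (p.2 i))).card ≤ En t (fun x : {x // x ∈ X} => f x.1) := by
    unfold En
    rw [Nat.card_eq_fintype_card, ← card_univ]
    apply card_le_card_of_surjOn (fun q : {q : (Fin t → {x // x ∈ X}) × (Fin t → {x // x ∈ X}) //
      ∑ j, f (q.1 j).1 = ∑ j, f (q.2 j).1} => ((fun i => (q.1.1 i).1), (fun i => (q.1.2 i).1)))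
    intro p hp
    rw [mem_coe, mem_filter, mem_product, Fintype.mem_piFinset, Fintype.mem_piFinset] at hp
    obtain ⟨⟨hp1, hp2⟩, hs⟩ := hp
    refine ⟨⟨(fun i => ⟨p.1 i, hp1 i⟩, fun i => ⟨p.2 i, hp2 i⟩), hs⟩, mem_coe.2 (mem_univ _), rfl⟩
  have h1 := h G hG P hP1
  have hbox : box n P = X := by rw [hX]; rfl
  rw [hbox] at h1
  rw [← hX]
  have h2 : (En t (fun x : {x // x ∈ X} => f x.1) : ℝ) * (P : ℝ) ^ d ≤ C * (X.card : ℝ) ^ (2 * t) := by
    rw [hf]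
    exact h1
  obtain ⟨A, hA⟩ : ∃ A : ℝ, A = (((Fintype.piFinset (fun _ : Fin t => X) ×ˢ Fintype.piFinset (fun _ : Fin t => X)).filter
      (fun p => ∑ i, f (p.1 i) = ∑ i, f (p.2 i))).card : ℝ) := ⟨_, rfl⟩
  have hA0 : 0 ≤ A := by rw [hA]; exact Nat.cast_nonneg _
  have hAE : A ≤ (En t (fun x : {x // x ∈ X} => f x.1) : ℝ) := by rw [hA]; exact_mod_cast hle
  have h3 : A * (P : ℝ) ^ d ≤ C * (X.card : ℝ) ^ (2 * t) := (mul_le_mul_of_nonneg_right hAE (by positivity)).trans h2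
  have h4 : (N : ℝ) ^ (1 - δ) * A ≤ (X.card : ℝ) ^ (2 * t) := by
    have e1 : (N : ℝ) ^ (1 - δ) = (N : ℝ) ^ (-(δ / 2)) * (N : ℝ) ^ (1 - δ / 2) := by
      rw [← Real.rpow_add hN0]
      congr 1
      ring
    have e2 := hN₁ N (by omega)
    rw [pow_zero, mul_one] at e2
    calc (N : ℝ) ^ (1 - δ) * A = (N : ℝ) ^ (-(δ / 2)) * ((N : ℝ) ^ (1 - δ / 2) * A) := by rw [e1]; ring
      _ ≤ (N : ℝ) ^ (-(δ / 2)) * ((P : ℝ) ^ d * A) := by
          apply mul_le_mul_of_nonneg_left _ (Real.rpow_nonneg hN0.le _)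
          exact mul_le_mul_of_nonneg_right hPN hA0
      _ ≤ (N : ℝ) ^ (-(δ / 2)) * (C * (X.card : ℝ) ^ (2 * t)) := by
          apply mul_le_mul_of_nonneg_left _ (Real.rpow_nonneg hN0.le _)
          rw [mul_comm]
          exact h3
      _ ≤ (N : ℝ) ^ (-(δ / 2)) * ((N : ℝ) ^ (δ / 2) * (X.card : ℝ) ^ (2 * t)) := by
          apply mul_le_mul_of_nonneg_left _ (Real.rpow_nonneg hN0.le _)
          exact mul_le_mul_of_nonneg_right e2 (by positivity)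
      _ = (X.card : ℝ) ^ (2 * t) := by
          rw [← mul_assoc, ← Real.rpow_add hN0]
          have : -(δ / 2) + δ / 2 = 0 := by ring
          rw [this, Real.rpow_zero, one_mul]
  rw [hA, hf] at h4
  exact h4

end Pool.Agent.Helper86.SE
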